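import Pool.Agent.NUTG.Foc

/-!
# The current of an ended line: Laurent polynomiality, degree and both extreme coefficients

The current of the empty line `t` sees a list of objects (kind, position `c`):
* `A`: mark at `c` (I line of charge `+`, occupied line below);
* `B`: mark at `c / θ` (I line of charge `0`);
* `C` (I line `-`, J line `+`, line at the other puncture), `D` (J line `0`), `E` (J line `-`,
  occupied line above): no mark;
* `R`: the empty line itself, for the dependence on an occupied line.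
-/

set_option autoImplicit false

open Polynomial

noncomputable section

namespace NUTG

open NUTP

/-! ### Laurent polynomials with both extreme coefficients -/

/-- exponents `M, M - 2, .., -M`, extreme coefficients `u` (of `a ^ M`) and `v` (of `a ^ (-M)`) -/
def LQ (M : ℕ) (f : ℂ → ℂ) (u v : ℂ) : Prop :=
  ∃ P : ℂ[X], P.natDegree ≤ M ∧ P.coeff M = u ∧ P.coeff 0 = v ∧
    ∀ a : ℂ, a ≠ 0 → a ^ M * f a = P.eval (a ^ 2)

lemma LQ.lp {M : ℕ} {f : ℂ → ℂ} {u v : ℂ} (h : LQ M f u v) : LP M f := by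
  obtain ⟨P, h1, _, _, h4⟩ := h
  exact ⟨P, h1, h4⟩

lemma LQ.congr {M : ℕ} {f g : ℂ → ℂ} {u v : ℂ} (hf : LQ M f u v) (h : ∀ a, a ≠ 0 → g a = f a) :
    LQ M g u v := by
  obtain ⟨P, h1, h2, h3, h4⟩ := hf
  exact ⟨P, h1, h2, h3, fun a ha => by rw [h a ha, h4 a ha]⟩

lemma LQ.const (c : ℂ) : LQ 0 (fun _ => c) c c := ⟨C c, by simp, by simp, by simp, fun a _ => by simp⟩

lemma LQ.mul {M N : ℕ} {f g : ℂ → ℂ} {u v u' v' : ℂ} (hf : LQ M f u v) (hg : LQ N g u' v') :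
    LQ (M + N) (fun a => f a * g a) (u * u') (v * v') := by
  obtain ⟨P, h1, h2, h3, h4⟩ := hf
  obtain ⟨Q, k1, k2, k3, k4⟩ := hg
  refine ⟨P * Q, (natDegree_mul_le).trans (by omega), ?_, ?_, fun a ha => ?_⟩
  · rw [coeff_mul_add_eq_of_natDegree_le h1 k1, h2, k2]
  · rw [mul_coeff_zero, h3, k3]
  · rw [eval_mul, ← h4 a ha, ← k4 a ha]; ring

lemma LQ.prod {ι : Type*} (l : List ι) {f : ι → ℂ → ℂ} {d : ι → ℕ} {u v : ι → ℂ}
    (h : ∀ i ∈ l, LQ (d i) (f i) (u i) (v i)) :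
    LQ (l.map d).sum (fun a => (l.map fun i => f i a).prod) (l.map u).prod (l.map v).prod := by
  induction l with
  | nil => simpa using LQ.const 1
  | cons i l ih =>
    simp only [List.map_cons, List.sum_cons, List.prod_cons]
    exact (h i List.mem_cons_self).mul (ih fun j hj => h j (List.mem_cons_of_mem _ hj))

/-- a function of lower degree added -/
lemma LQ.sub_lp {M : ℕ} {f g : ℂ → ℂ} {u v : ℂ} (hf : LQ (M + 2) f u v) (hg : LP M g) :
    LQ (M + 2) (fun a => f a - g a) u v := by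
  obtain ⟨P, h1, h2, h3, h4⟩ := hf
  obtain ⟨Q, k1, k2⟩ := hg
  have hQ : (Q * X).natDegree ≤ M + 1 := (natDegree_mul_le).trans (by
    have := natDegree_X_le (R := ℂ); omega)
  refine ⟨P - Q * X, ?_, ?_, ?_, fun a ha => ?_⟩
  · exact (natDegree_sub_le _ _).trans (max_le h1 (by omega))
  · rw [coeff_sub, h2, coeff_eq_zero_of_natDegree_lt (by omega : (Q * X).natDegree < M + 2),
      sub_zero]
  · rw [coeff_sub, h3, mul_coeff_zero, coeff_X_zero, mul_zero, sub_zero]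
  · rw [eval_sub, ← h4 a ha, eval_mul, ← k2 a ha, eval_X]; ring

lemma LQ.lin (u v : ℂ) : LQ 1 (fun a => u * a + v * a⁻¹) u v := by
  refine ⟨C u * X + C v, ?_, ?_, ?_, fun a ha => ?_⟩
  · refine (natDegree_add_le _ _).trans (max_le ((natDegree_C_mul_le _ _).trans (by simp)) (by simp))
  · simp [coeff_C]
  · simp
  · simp only [eval_add, eval_mul, eval_C, eval_X]; field_simp

lemma LQ.sn (θ : ℂ) (k : ℕ) (c : ℂ) : LQ 1 (fun a => NUTP.sn θ k (a / c))
    (θ ^ k / (2 * θ ^ 4 * c)) (-(c / (2 * θ ^ 4 * θ ^ k))) := by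
  refine (LQ.lin _ _).congr fun a _ => ?_
  unfold NUTP.sn
  rw [mul_inv, inv_div]
  ring

lemma LQ.sn' (θ : ℂ) (k : ℕ) (c : ℂ) : LQ 1 (fun a => NUTP.sn θ k (c / a))
    (-(1 / (2 * θ ^ 4 * θ ^ k * c))) (θ ^ k * c / (2 * θ ^ 4)) := by
  refine (LQ.lin _ _).congr fun a _ => ?_
  simp only [NUTP.sn, mul_inv, inv_div]
  ring

lemma LQ.cs (c : ℂ) : LQ 1 (fun a => NUTP.cs (a / c)) (1 / (2 * c)) (c / 2) := by
  refine (LQ.lin _ _).congr fun a _ => ?_
  unfold NUTP.cs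
  rw [inv_div]
  ring

lemma LP.lsum {ι : Type*} (l : List ι) {M : ℕ} {f : ι → ℂ → ℂ} (h : ∀ i ∈ l, LP M (f i)) :
    LP M (fun a => (l.map fun i => f i a).sum) := by
  induction l with
  | nil => simpa using LP.zero M
  | cons i l ih =>
    simp only [List.map_cons, List.sum_cons]
    exact (h i List.mem_cons_self).add (ih fun j hj => h j (List.mem_cons_of_mem _ hj))

lemma sn0_ne {θ a b : ℂ} (hθ : θ ≠ 0) (ha : a ≠ 0) (hb : b ≠ 0) (h : a ^ 2 ≠ b ^ 2) :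
    NUTP.sn θ 0 (a / b) ≠ 0 := by
  unfold NUTP.sn
  rw [pow_zero, one_mul, inv_div]
  refine div_ne_zero ?_ (mul_ne_zero two_ne_zero (pow_ne_zero _ hθ))
  intro h0
  apply h
  field_simp at h0
  linear_combination h0

lemma sn0_self {θ a : ℂ} (ha : a ≠ 0) : NUTP.sn θ 0 (a / a) = 0 := by
  rw [div_self ha]; simp [NUTP.sn]

/-- division by one zero -/
lemma LQ.div {M : ℕ} {f : ℂ → ℂ} {u v : ℂ} {θ w : ℂ} (hθ : θ ≠ 0) (hw : w ≠ 0)
    (hf : LQ (M + 1) f u v) (h0 : f w = 0) :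
    ∃ g : ℂ → ℂ, LQ M g (u * (2 * θ ^ 4 * w)) (v * (-(2 * θ ^ 4 / w))) ∧
      ∀ a, a ≠ 0 → f a = NUTP.sn θ 0 (a / w) * g a := by
  obtain ⟨P, h1, h2, h3, h4⟩ := hf
  have h5 : P.eval (w ^ 2) = 0 := by rw [← h4 w hw, h0, mul_zero]
  obtain ⟨Q, hQ⟩ := dvd_iff_isRoot.2 h5
  have hQd : Q.natDegree ≤ M := by
    rcases eq_or_ne Q 0 with rfl | hq
    · simp
    · have := natDegree_mul (X_sub_C_ne_zero (w ^ 2)) hq
      rw [← hQ, natDegree_X_sub_C] at this
      omega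
  have hc0 : P.coeff 0 = -(w ^ 2) * Q.coeff 0 := by
    rw [hQ, mul_coeff_zero, coeff_sub, coeff_X_zero, coeff_C_zero, zero_sub]
  have hcM : P.coeff (M + 1) = Q.coeff M := by
    rw [hQ, add_comm M 1, coeff_mul_add_eq_of_natDegree_le (natDegree_X_sub_C_le _) hQd,
      coeff_sub, coeff_X_one, coeff_C]
    simp
  refine ⟨fun a => (2 * θ ^ 4 * w) * (Q.eval (a ^ 2) / a ^ M),
    ⟨C (2 * θ ^ 4 * w) * Q, (natDegree_C_mul_le _ _).trans hQd, ?_, ?_, fun a ha => ?_⟩,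
    fun a ha => ?_⟩
  · rw [coeff_C_mul, ← hcM, h2]; ring
  · rw [coeff_C_mul, ← h3, hc0]; field_simp
  · rw [eval_mul, eval_C]; field_simp
  · have h6 := h4 a ha
    rw [hQ, eval_mul, eval_sub, eval_X, eval_C] at h6
    have h7 : f a = (a ^ 2 - w ^ 2) * Q.eval (a ^ 2) / a ^ (M + 1) := by
      rw [← h6]; field_simp
    rw [h7]
    unfold NUTP.sn
    rw [pow_zero, one_mul, inv_div, pow_succ]
    field_simp
    ring

/-- division by several zeros -/
lemma LQ.divs {θ : ℂ} (hθ : θ ≠ 0) (ws : List ℂ) (hw : ∀ w ∈ ws, w ≠ 0)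
    (hp : ws.Pairwise fun a b => a ^ 2 ≠ b ^ 2) {M : ℕ} {f : ℂ → ℂ} {u v : ℂ}
    (hf : LQ (M + ws.length) f u v) (h0 : ∀ w ∈ ws, f w = 0) :
    ∃ g : ℂ → ℂ, LQ M g (u * (ws.map fun w => 2 * θ ^ 4 * w).prod)
        (v * (ws.map fun w => -(2 * θ ^ 4 / w)).prod) ∧
      ∀ a, a ≠ 0 → f a = (ws.map fun w => NUTP.sn θ 0 (a / w)).prod * g a := by
  induction ws generalizing f u v with
  | nil => exact ⟨f, by simpa using hf, fun a _ => by simp⟩
  | cons w ws ih =>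
    have hw0 := hw w List.mem_cons_self
    obtain ⟨g, hg, hfg⟩ := LQ.div (M := M + ws.length) hθ hw0 (by
      have : M + (w :: ws).length = M + ws.length + 1 := by rw [List.length_cons]; ring
      rw [← this]; exact hf) (h0 w List.mem_cons_self)
    rw [List.pairwise_cons] at hp
    obtain ⟨k, hk, hgk⟩ := ih (fun w' hw' => hw w' (List.mem_cons_of_mem _ hw')) hp.2 hg (by
      intro w' hw'
      have hw'0 := hw w' (List.mem_cons_of_mem _ hw')
      have h1 := h0 w' (List.mem_cons_of_mem _ hw')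
      rw [hfg w' hw'0] at h1
      rcases mul_eq_zero.1 h1 with h2 | h2
      · exact absurd h2 (sn0_ne hθ hw'0 hw0 (hp.1 w' hw').symm)
      · exact h2)
    refine ⟨k, ?_, fun a ha => ?_⟩
    · rw [List.map_cons, List.map_cons, List.prod_cons, List.prod_cons,
        ← mul_assoc u (2 * θ ^ 4 * w), ← mul_assoc v]
      exact hk
    · rw [hfg a ha, hgk a ha, List.map_cons, List.prod_cons]; ring

/-! ### the kinds -/

/-- kinds of objects seen by the current -/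
inductive Kd
  | A | B | C | D | E | R
  deriving DecidableEq

/-- factor of the ended line `t` -/
def vf (θ : ℂ) : Kd → ℂ → ℂ → ℂ
  | .A, c, t => sk θ (t / c)
  | .B, c, t => NUTP.sn θ 3 (t / c)
  | .C, _, _ => 1
  | .D, c, t => NUTP.sn θ 3 (c / t)
  | .E, c, t => sk θ (c / t)
  | .R, c, t => sk θ (c / t)

/-- factor of the current at `w` -/
def ff (θ : ℂ) : Kd → ℂ → ℂ → ℂ
  | .A, c, w => 1 / NUTP.sn θ 0 (w / c)
  | .B, c, w => NUTP.sn θ 2 (w / c) / NUTP.sn θ 1 (w / c)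
  | .C, c, w => NUTP.sn θ 3 (w / c)
  | .D, c, w => NUTP.cs (w / c) / NUTP.sn θ 3 (c / w)
  | .E, c, w => 1 / NUTP.sn θ 2 (c / w)
  | .R, c, w => NUTP.sn θ 2 1 / (NUTP.sn θ 0 (w / c) * NUTP.sn θ 2 (c / w))

/-- numerator of `vf t * ff t` -/
def nf (θ : ℂ) : Kd → ℂ → ℂ → ℂ
  | .A, c, t => sk θ (t / c)
  | .B, c, t => sk θ (t / c)
  | .C, c, t => NUTP.sn θ 3 (t / c)
  | .D, c, t => NUTP.cs (t / c)
  | .E, c, t => NUTP.sn θ 3 (c / t)
  | .R, c, t => NUTP.sn θ 2 1 * NUTP.sn θ 3 (c / t)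

/-- denominator of `vf t * ff t` -/
def df (θ : ℂ) : Kd → ℂ → ℂ → ℂ
  | .A, c, t => NUTP.sn θ 0 (t / c)
  | .B, c, t => NUTP.sn θ 1 (t / c)
  | .C, _, _ => 1
  | .D, _, _ => 1
  | .E, _, _ => 1
  | .R, c, t => NUTP.sn θ 0 (t / c)

/-- position of the mark -/
def wm (θ : ℂ) : Kd → ℂ → ℂ
  | .B, c => c / θ
  | _, c => c

/-- marked kinds -/
def Kd.mk? : Kd → Bool
  | .A => true
  | .B => true
  | .R => true
  | _ => false

/-- the mark term: `residue * V (t) * kernel`, times `-df` ; variable = the empty line -/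
def me (θ : ℂ) : Kd → ℂ → ℂ → ℂ
  | .A, c, t => NUTP.sn θ 2 1 * NUTP.sn θ 3 (t / c)
  | .B, _, _ => NUTP.sn θ 2 1 * NUTP.sn θ 1 1
  | _, _, _ => 0

/-- the same; variable = an occupied line below the empty one -/
def mo (θ : ℂ) : Kd → ℂ → ℂ → ℂ
  | .A, c, t => sk θ (t / c)
  | .B, c, t => NUTP.sn θ 1 1 * NUTP.sn θ 3 (t / c)
  | .R, c, t => sk θ (c / t)
  | _, _, _ => 0

/-- the current in cancelled form: own term minus marks -/
def curc (θ : ℂ) (μ : Kd → ℂ → ℂ → ℂ) (os : List (Kd × ℂ)) (t : ℂ) : ℂ :=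
  (os.map fun o => nf θ o.1 o.2 t / df θ o.1 o.2 t).prod -
    ((foc os).map fun p => μ p.1.1 p.1.2 t / df θ p.1.1 p.1.2 t *
      (p.2.map fun o => vf θ o.1 o.2 t * ff θ o.1 o.2 (wm θ p.1.1 p.1.2)).prod).sum

/-- the same times all `df` -/
def curM (θ : ℂ) (μ : Kd → ℂ → ℂ → ℂ) (os : List (Kd × ℂ)) (t : ℂ) : ℂ :=
  (os.map fun o => nf θ o.1 o.2 t).prod -
    ((foc os).map fun p => μ p.1.1 p.1.2 t *
      (p.2.map fun o => (df θ o.1 o.2 t * vf θ o.1 o.2 t) * ff θ o.1 o.2 (wm θ p.1.1 p.1.2)).prod).sum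

lemma curM_eq (θ : ℂ) (μ : Kd → ℂ → ℂ → ℂ) (os : List (Kd × ℂ)) (t : ℂ)
    (h : ∀ o ∈ os, df θ o.1 o.2 t ≠ 0) :
    curM θ μ os t = (os.map fun o => df θ o.1 o.2 t).prod * curc θ μ os t := by
  unfold curM curc
  rw [mul_sub]
  congr 1
  · rw [← List.prod_map_mul]
    congr 1
    refine List.map_congr_left fun o ho => ?_
    rw [mul_div_cancel₀ _ (h o ho)]
  · rw [← List.sum_map_mul_left]
    congr 1
    refine List.map_congr_left fun p hp => ?_
    have h1 := (foc_perm_cons hp).map (fun o => df θ o.1 o.2 t)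
    rw [h1.prod_eq, List.map_cons, List.prod_cons]
    have h2 := h p.1 (foc_mem hp)
    have h3 : (p.2.map fun o => (df θ o.1 o.2 t * vf θ o.1 o.2 t) *
        ff θ o.1 o.2 (wm θ p.1.1 p.1.2)).prod = (p.2.map fun o => df θ o.1 o.2 t).prod *
        (p.2.map fun o => vf θ o.1 o.2 t * ff θ o.1 o.2 (wm θ p.1.1 p.1.2)).prod := by
      rw [← List.prod_map_mul]
      congr 1
      exact List.map_congr_left fun o _ => by ring
    rw [h3]
    field_simp

lemma curM_perm (θ : ℂ) (μ : Kd → ℂ → ℂ → ℂ) {os os' : List (Kd × ℂ)} (h : os.Perm os') (t : ℂ) :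
    curM θ μ os t = curM θ μ os' t := by
  unfold curM
  rw [(h.map _).prod_eq]
  congr 1
  exact foc_sum_perm h (fun q l => μ q.1 q.2 t *
      (l.map fun o => (df θ o.1 o.2 t * vf θ o.1 o.2 t) * ff θ o.1 o.2 (wm θ q.1 q.2)).prod)
    fun x A B hAB => by rw [(hAB.map _).prod_eq]

lemma curc_perm (θ : ℂ) (μ : Kd → ℂ → ℂ → ℂ) {os os' : List (Kd × ℂ)} (h : os.Perm os') (t : ℂ) :
    curc θ μ os t = curc θ μ os' t := by
  unfold curc
  rw [(h.map _).prod_eq]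
  congr 1
  exact foc_sum_perm h (fun q l => μ q.1 q.2 t / df θ q.1 q.2 t *
      (l.map fun o => vf θ o.1 o.2 t * ff θ o.1 o.2 (wm θ q.1 q.2)).prod)
    fun x A B hAB => by rw [(hAB.map _).prod_eq]

/-! ### separated positions -/

/-- the two lines do not differ by a multiple of `λ` -/
def Sp (θ a b : ℂ) : Prop := NUGas.Sep (θ ^ 2) (a ^ 2) (b ^ 2)

lemma th_ne {θ : ℂ} (hθ : θ ^ 8 = -1) : θ ≠ 0 := by
  rintro rfl; norm_num at hθ

lemma th2 {θ : ℂ} (hθ : θ ^ 8 = -1) : (θ ^ 2) ^ 4 = -1 := by rw [← hθ]; ring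

lemma Sp.symm {θ a b : ℂ} (hθ : θ ^ 8 = -1) (h : Sp θ a b) : Sp θ b a :=
  NUGas.Sep.symm (th2 hθ) h

lemma Sp.sn_ne {θ a b : ℂ} (hθ : θ ^ 8 = -1) (ha : a ≠ 0) (hb : b ≠ 0) (h : Sp θ a b) (k : ℕ) :
    NUTP.sn θ k (a / b) ≠ 0 := by
  have h0 := th_ne hθ
  unfold NUTP.sn
  refine div_ne_zero ?_ (mul_ne_zero two_ne_zero (pow_ne_zero _ h0))
  intro h1
  apply h k
  have h2 : θ ^ k * (a / b) ≠ 0 := mul_ne_zero (pow_ne_zero _ h0) (div_ne_zero ha hb)
  rw [sub_eq_zero] at h1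
  have h3 : θ ^ k * (a / b) * (θ ^ k * (a / b)) = 1 := by
    nth_rewrite 2 [h1]
    exact mul_inv_cancel₀ h2
  have h4 : (θ ^ k) ^ 2 * a ^ 2 = b ^ 2 := by
    have : b ^ 2 = b ^ 2 * (θ ^ k * (a / b) * (θ ^ k * (a / b))) := by rw [h3, mul_one]
    rw [this]
    field_simp
  rw [← h4, ← pow_mul, ← pow_mul, mul_comm 2 k]

lemma Sp.wm {θ a b : ℂ} (hθ : θ ^ 8 = -1) (h : Sp θ a b) (κ : Kd) : Sp θ (NUTG.wm θ κ a) b := by
  have h0 := th_ne hθ
  have h16 : θ ^ 16 = 1 := by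
    rw [show (16 : ℕ) = 8 * 2 from rfl, pow_mul, hθ]; norm_num
  cases κ
  case B =>
    intro k hk
    apply h (k + 7)
    rw [← hk]
    unfold NUTG.wm
    rw [pow_add, div_pow]
    have : (θ ^ 2) ^ 7 = 1 / θ ^ 2 := by
      rw [eq_div_iff (pow_ne_zero _ h0), ← h16]; ring
    rw [this]; ring
  all_goals exact h

lemma wm_ne {θ c : ℂ} (hθ : θ ≠ 0) (hc : c ≠ 0) (κ : Kd) : wm θ κ c ≠ 0 := by
  cases κ
  case B => exact div_ne_zero hc hθ
  all_goals exact hc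

lemma df_eq {θ : ℂ} (hθ : θ ≠ 0) (κ : Kd) (c t : ℂ) :
    df θ κ c t = if κ.mk? then NUTP.sn θ 0 (t / wm θ κ c) else 1 := by
  cases κ
  case B =>
    simp only [df, Kd.mk?, wm, if_true]
    unfold NUTP.sn
    have : θ ^ 1 * (t / c) = θ ^ 0 * (t / (c / θ)) := by
      rw [div_div_eq_mul_div]; ring
    rw [this]
  all_goals simp [df, Kd.mk?, wm]

/-- at a separated position: `df * vf * ff = nf` -/
lemma dvf_eq {θ w c : ℂ} (hθ : θ ^ 8 = -1) (hw : w ≠ 0) (hc : c ≠ 0) (h : Sp θ w c) (κ : Kd) :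
    df θ κ c w * vf θ κ c w * ff θ κ c w = nf θ κ c w := by
  have a0 := h.sn_ne hθ hw hc 0
  have a1 := h.sn_ne hθ hw hc 1
  have b2 := (h.symm hθ).sn_ne hθ hc hw 2
  have b3 := (h.symm hθ).sn_ne hθ hc hw 3
  cases κ <;> simp only [df, vf, ff, nf, sk] <;> field_simp

lemma me_wm {θ c : ℂ} (hθ : θ ≠ 0) (hc : c ≠ 0) {κ : Kd} (hk : κ.mk? = true) (hR : κ ≠ .R) :
    me θ κ c (wm θ κ c) = nf θ κ c (wm θ κ c) := by
  cases κ <;> simp only [Kd.mk?, me, nf, wm, sk, div_self hc, ne_eq, not_true_eq_false,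
    reduceCtorEq] at hk hR ⊢
  have e : c / θ / c = θ⁻¹ := by field_simp
  rw [e]
  have e2 : NUTP.sn θ 2 θ⁻¹ = NUTP.sn θ 1 1 := by
    unfold NUTP.sn
    have : θ ^ 2 * θ⁻¹ = θ ^ 1 * 1 := by field_simp
    rw [this]
  have e3 : NUTP.sn θ 3 θ⁻¹ = NUTP.sn θ 2 1 := by
    unfold NUTP.sn
    have : θ ^ 3 * θ⁻¹ = θ ^ 2 * 1 := by field_simp
    rw [this]
  rw [e2, e3]; ring

lemma mo_wm {θ c : ℂ} (hθ : θ ≠ 0) (hc : c ≠ 0) {κ : Kd} (hk : κ.mk? = true) :
    mo θ κ c (wm θ κ c) = nf θ κ c (wm θ κ c) := by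
  cases κ <;> simp only [Kd.mk?, mo, nf, wm, sk, div_self hc, ne_eq, not_true_eq_false,
    reduceCtorEq] at hk ⊢
  have e : c / θ / c = θ⁻¹ := by field_simp
  rw [e]
  have e2 : NUTP.sn θ 2 θ⁻¹ = NUTP.sn θ 1 1 := by
    unfold NUTP.sn
    have : θ ^ 2 * θ⁻¹ = θ ^ 1 * 1 := by field_simp
    rw [this]
  rw [e2]

/-- the numerator vanishes at every mark -/
lemma curM_mark {θ : ℂ} (hθ : θ ^ 8 = -1) {μ : Kd → ℂ → ℂ → ℂ} {os : List (Kd × ℂ)}
    (h0 : ∀ o ∈ os, o.2 ≠ 0) (hs : os.Pairwise fun o o' => Sp θ o.2 o'.2) {o : Kd × ℂ}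
    (ho : o ∈ os) (hk : o.1.mk? = true)
    (hμ : μ o.1 o.2 (wm θ o.1 o.2) = nf θ o.1 o.2 (wm θ o.1 o.2)) :
    curM θ μ os (wm θ o.1 o.2) = 0 := by
  obtain ⟨s, u, rfl⟩ := List.append_of_mem ho
  have hp : (s ++ o :: u).Perm (o :: (s ++ u)) := List.perm_middle
  rw [curM_perm θ μ hp]
  have hs' := (hp.pairwise_iff (fun {_ _} h => Sp.symm hθ h)).1 hs
  rw [List.pairwise_cons] at hs'
  set r := s ++ u with hr
  set w := wm θ o.1 o.2 with hw
  have ho0 := h0 o ho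
  have hw0 : w ≠ 0 := wm_ne (th_ne hθ) ho0 _
  have hr0 : ∀ o' ∈ r, o'.2 ≠ 0 := fun o' ho' => h0 o' (hp.mem_iff.2 (List.mem_cons_of_mem _ ho'))
  have hd : df θ o.1 o.2 w = 0 := by
    rw [df_eq (th_ne hθ), hk, if_pos rfl, ← hw]; exact sn0_self hw0
  unfold curM
  simp only [foc, List.map_cons, List.prod_cons, List.sum_cons, List.map_map, Function.comp_def]
  rw [← hw, hμ, hd]
  have h1 : (r.map fun o' => df θ o'.1 o'.2 w * vf θ o'.1 o'.2 w * ff θ o'.1 o'.2 w).prod =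
      (r.map fun o' => nf θ o'.1 o'.2 w).prod := by
    congr 1
    exact List.map_congr_left fun o' ho' =>
      dvf_eq hθ hw0 (hr0 o' ho') ((hs'.1 o' ho').wm hθ _) _
  rw [h1]
  simp

/-! ### degrees -/

/-- degree of `nf` -/
def dN : Kd → ℕ
  | .A => 2
  | .B => 2
  | _ => 1

/-- degree of `df * vf` -/
def dV : Kd → ℕ
  | .A => 3
  | .B => 2
  | .C => 0
  | .D => 1
  | .E => 2
  | .R => 3

/-- charge -/
def ch : Kd → ℤ
  | .A => 1
  | .B => 0
  | .C => -1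
  | .D => 0
  | .E => 1
  | .R => 2

/-- top coefficient of `nf` -/
def tN (θ : ℂ) : Kd → ℂ → ℂ
  | .A, c => θ ^ 2 / (2 * θ ^ 4 * c) * (θ ^ 3 / (2 * θ ^ 4 * c))
  | .B, c => θ ^ 2 / (2 * θ ^ 4 * c) * (θ ^ 3 / (2 * θ ^ 4 * c))
  | .C, c => θ ^ 3 / (2 * θ ^ 4 * c)
  | .D, c => 1 / (2 * c)
  | .E, c => -(1 / (2 * θ ^ 4 * θ ^ 3 * c))
  | .R, c => NUTP.sn θ 2 1 * -(1 / (2 * θ ^ 4 * θ ^ 3 * c))

/-- bottom coefficient of `nf` -/
def bN (θ : ℂ) : Kd → ℂ → ℂ
  | .A, c => -(c / (2 * θ ^ 4 * θ ^ 2)) * -(c / (2 * θ ^ 4 * θ ^ 3))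
  | .B, c => -(c / (2 * θ ^ 4 * θ ^ 2)) * -(c / (2 * θ ^ 4 * θ ^ 3))
  | .C, c => -(c / (2 * θ ^ 4 * θ ^ 3))
  | .D, c => c / 2
  | .E, c => θ ^ 3 * c / (2 * θ ^ 4)
  | .R, c => NUTP.sn θ 2 1 * (θ ^ 3 * c / (2 * θ ^ 4))

lemma nf_lq (θ : ℂ) (κ : Kd) (c : ℂ) :
    LQ (dN κ) (nf θ κ c) (tN θ κ c) (bN θ κ c) := by
  cases κ
  case A => exact (LQ.sn θ 2 c).mul (LQ.sn θ 3 c)
  case B => exact (LQ.sn θ 2 c).mul (LQ.sn θ 3 c)
  case C => exact LQ.sn θ 3 c
  case D => exact LQ.cs c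
  case E => exact LQ.sn' θ 3 c
  case R => exact (LQ.const _).mul (LQ.sn' θ 3 c)

lemma dvf_lp (θ : ℂ) (κ : Kd) (c : ℂ) : LP (dV κ) (fun t => df θ κ c t * vf θ κ c t) := by
  cases κ
  case A => exact (LP.sn θ 0 c).mul ((LP.sn θ 2 c).mul (LP.sn θ 3 c))
  case B => exact (LP.sn θ 1 c).mul (LP.sn θ 3 c)
  case C => exact (LP.const 1).mul (LP.const 1)
  case D => exact ((LP.const 1).mul (LP.sn' θ 3 c))
  case E => exact ((LP.const 1).mul ((LP.sn' θ 2 c).mul (LP.sn' θ 3 c)))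
  case R => exact (LP.sn θ 0 c).mul ((LP.sn' θ 2 c).mul (LP.sn' θ 3 c))

/-- the marks -/
def mks (θ : ℂ) (os : List (Kd × ℂ)) : List ℂ :=
  (os.filter fun o => o.1.mk?).map fun o => wm θ o.1 o.2

lemma prod_mks (θ : ℂ) (os : List (Kd × ℂ)) (F : ℂ → ℂ) :
    ((mks θ os).map F).prod = (os.map fun o => if o.1.mk? then F (wm θ o.1 o.2) else 1).prod := by
  unfold mks
  induction os with
  | nil => simp
  | cons o os ih =>
    rw [List.filter_cons]
    cases h : o.1.mk?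
    · simpa [h] using ih
    · simp only [if_true, List.map_cons, List.prod_cons, h]
      rw [ih]

lemma mks_ne {θ : ℂ} (hθ : θ ≠ 0) {os : List (Kd × ℂ)} (h0 : ∀ o ∈ os, o.2 ≠ 0) :
    ∀ w ∈ mks θ os, w ≠ 0 := by
  intro w hw
  obtain ⟨o, ho, rfl⟩ := List.mem_map.1 hw
  exact wm_ne hθ (h0 o (List.mem_filter.1 ho).1) _

lemma mks_pair {θ : ℂ} (hθ : θ ^ 8 = -1) {os : List (Kd × ℂ)}
    (hs : os.Pairwise fun o o' => Sp θ o.2 o'.2) :
    (mks θ os).Pairwise fun a b => a ^ 2 ≠ b ^ 2 := by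
  unfold mks
  rw [List.pairwise_map]
  refine (hs.filter _).imp fun {a b} h => ?_
  have h1 : Sp θ (wm θ a.1 a.2) (wm θ b.1 b.2) :=
    (((h.wm hθ a.1).symm hθ).wm hθ b.1).symm hθ
  have := h1 0
  rwa [pow_zero, one_mul] at this

/-- the common part -/
lemma cur_core {θ : ℂ} (hθ : θ ^ 8 = -1) {μ : Kd → ℂ → ℂ → ℂ} {os : List (Kd × ℂ)}
    (h0 : ∀ o ∈ os, o.2 ≠ 0) (hs : os.Pairwise fun o o' => Sp θ o.2 o'.2)
    (hμ : ∀ o ∈ os, o.1.mk? = true → μ o.1 o.2 (wm θ o.1 o.2) = nf θ o.1 o.2 (wm θ o.1 o.2))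
    {M : ℕ} {u v : ℂ} (hM : LQ (M + (mks θ os).length) (curM θ μ os) u v) :
    ∃ g : ℂ → ℂ, LQ M g (u * (os.map fun o => if o.1.mk? then 2 * θ ^ 4 * wm θ o.1 o.2 else 1).prod)
      (v * (os.map fun o => if o.1.mk? then -(2 * θ ^ 4 / wm θ o.1 o.2) else 1).prod) ∧
      ∀ t, t ≠ 0 → (∀ o ∈ os, df θ o.1 o.2 t ≠ 0) → curc θ μ os t = g t := by
  obtain ⟨g, hg, hfg⟩ := LQ.divs (th_ne hθ) (mks θ os) (mks_ne (th_ne hθ) h0) (mks_pair hθ hs) hM (by
    intro w hw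
    obtain ⟨o, ho, rfl⟩ := List.mem_map.1 hw
    rw [List.mem_filter] at ho
    exact curM_mark hθ h0 hs ho.1 (by simpa using ho.2) (hμ o ho.1 (by simpa using ho.2)))
  rw [prod_mks θ os (fun w => 2 * θ ^ 4 * w), prod_mks θ os (fun w => -(2 * θ ^ 4 / w))] at hg
  refine ⟨g, hg, fun t ht hd => ?_⟩
  have h1 := hfg t ht
  rw [prod_mks θ os (fun w => NUTP.sn θ 0 (t / w)), curM_eq θ μ os t hd] at h1
  have h2 : (os.map fun o => if o.1.mk? then NUTP.sn θ 0 (t / wm θ o.1 o.2) else 1).prod =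
      (os.map fun o => df θ o.1 o.2 t).prod := by
    congr 1
    exact List.map_congr_left fun o _ => (df_eq (th_ne hθ) _ _ _).symm
  rw [h2] at h1
  refine mul_left_cancel₀ ?_ h1
  intro h3
  rw [List.prod_eq_zero_iff] at h3
  obtain ⟨o, ho, h4⟩ := List.mem_map.1 h3
  exact hd o ho h4

lemma dV_eq (κ : Kd) : (dV κ : ℤ) = dN κ + ch κ := by cases κ <;> simp [dV, dN, ch]

lemma sum_dV (os : List (Kd × ℂ)) : (((os.map fun o => dV o.1).sum : ℕ) : ℤ) =
    ((os.map fun o => dN o.1).sum : ℕ) + (os.map fun o => ch o.1).sum := by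
  induction os with
  | nil => simp
  | cons o os ih =>
    simp only [List.map_cons, List.sum_cons, Nat.cast_add, ih, dV_eq]
    ring

/-- degree of `me` -/
def dme : Kd → ℕ
  | .A => 1
  | _ => 0

/-- degree of `mo` -/
def dmo : Kd → ℕ
  | .A => 2
  | .B => 1
  | .R => 2
  | _ => 0

lemma me_lp (θ : ℂ) (κ : Kd) (c : ℂ) : LP (dme κ) (me θ κ c) := by
  cases κ
  case A => exact (LP.sn θ 3 c).cmul _
  case B => exact LP.const _
  all_goals exact LP.zero 0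

lemma mo_lp (θ : ℂ) (κ : Kd) (c : ℂ) : LP (dmo κ) (mo θ κ c) := by
  cases κ
  case A => exact (LP.sn θ 2 c).mul (LP.sn θ 3 c)
  case B => exact (LP.sn θ 3 c).cmul _
  case R => exact (LP.sn' θ 2 c).mul (LP.sn' θ 3 c)
  all_goals exact LP.zero 0

lemma foc_sum_map {α : Type*} {L : List α} {p : α × List α} (h : p ∈ foc L) (d : α → ℕ) :
    (L.map d).sum = d p.1 + (p.2.map d).sum := by
  rw [((foc_perm_cons h).map d).sum_eq, List.map_cons, List.sum_cons]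

lemma len_mks (θ : ℂ) {os : List (Kd × ℂ)} (hR : ∀ o ∈ os, o.1 ≠ .R) :
    (os.map fun o => dN o.1).sum = os.length + (mks θ os).length := by
  unfold mks
  induction os with
  | nil => simp
  | cons o os ih =>
    have h1 := ih fun o' ho' => hR o' (List.mem_cons_of_mem _ ho')
    have h2 := hR o List.mem_cons_self
    rw [List.map_cons, List.sum_cons, h1, List.filter_cons]
    rcases o with ⟨κ, c⟩
    cases κ <;> simp [Kd.mk?, dN] at h2 ⊢ <;> omega

/-- phase of one object -/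
lemma phase_top {θ : ℂ} (hθ : θ ^ 8 = -1) {κ : Kd} {c : ℂ} (hc : c ≠ 0) (hR : κ ≠ .R) :
    tN θ κ c * (if κ.mk? then 2 * θ ^ 4 * wm θ κ c else 1) = θ ^ ch κ * (2 * c)⁻¹ := by
  have h0 := th_ne hθ
  cases κ <;> simp only [tN, Kd.mk?, wm, ch, if_true, Bool.false_eq_true, if_false, zpow_one,
    zpow_zero, zpow_neg, ne_eq, not_true_eq_false] at hR ⊢ <;> field_simp
  linear_combination -hθ

lemma phase_bot {θ : ℂ} (hθ : θ ^ 8 = -1) {κ : Kd} {c : ℂ} (hc : c ≠ 0) (hR : κ ≠ .R) :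
    bN θ κ c * (if κ.mk? then -(2 * θ ^ 4 / wm θ κ c) else 1) = θ ^ (-ch κ) * (c / 2) := by
  have h0 := th_ne hθ
  cases κ <;> simp only [bN, Kd.mk?, wm, ch, if_true, Bool.false_eq_true, if_false, zpow_one,
    zpow_zero, zpow_neg, neg_neg, neg_zero, ne_eq, not_true_eq_false] at hR ⊢ <;> field_simp
  all_goals first | linear_combination hθ | linear_combination -hθ | skip

lemma prod_zpow {θ : ℂ} (h0 : θ ≠ 0) (os : List (Kd × ℂ)) (d : Kd → ℤ) (F : ℂ → ℂ) :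
    (os.map fun o => θ ^ d o.1 * F o.2).prod =
      θ ^ (os.map fun o => d o.1).sum * (os.map fun o => F o.2).prod := by
  induction os with
  | nil => simp
  | cons o os ih =>
    simp only [List.map_cons, List.prod_cons, List.sum_cons, ih, zpow_add₀ h0]
    ring

/-- **D1 and D2**: the current (cancelled form) as a function of the empty line -/
theorem cur_e {θ : ℂ} (hθ : θ ^ 8 = -1) {os : List (Kd × ℂ)} (h0 : ∀ o ∈ os, o.2 ≠ 0)
    (hs : os.Pairwise fun o o' => Sp θ o.2 o'.2) (hR : ∀ o ∈ os, o.1 ≠ .R)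
    (hch : (os.map fun o => ch o.1).sum = 0) :
    ∃ g : ℂ → ℂ, LQ os.length g (os.map fun o => (2 * o.2)⁻¹).prod (os.map fun o => o.2 / 2).prod ∧
      ∀ t, t ≠ 0 → (∀ o ∈ os, df θ o.1 o.2 t ≠ 0) → curc θ (me θ) os t = g t := by
  have hdV : (os.map fun o => dV o.1).sum = (os.map fun o => dN o.1).sum := by
    have := sum_dV os
    rw [hch, add_zero] at this
    exact_mod_cast this
  have hN := LQ.prod os (f := fun o => nf θ o.1 o.2) (d := fun o => dN o.1)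
    (u := fun o => tN θ o.1 o.2) (v := fun o => bN θ o.1 o.2) (fun o _ => nf_lq θ o.1 o.2)
  have hM : LQ (os.length + (mks θ os).length) (curM θ (me θ) os)
      (os.map fun o => tN θ o.1 o.2).prod (os.map fun o => bN θ o.1 o.2).prod := by
    rw [← len_mks θ hR]
    by_cases h : ∃ o ∈ os, o.1.mk? = true
    · obtain ⟨o, ho, hk⟩ := h
      have h2 : 2 ≤ (os.map fun o => dN o.1).sum := by
        refine le_trans ?_ (List.single_le_sum (by simp) _ (List.mem_map_of_mem ho))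
        rcases o with ⟨κ, c⟩
        cases κ <;> simp [Kd.mk?, dN] at hk ⊢
        exact absurd rfl (hR _ ho)
      obtain ⟨M, hM⟩ := Nat.exists_eq_add_of_le' h2
      rw [hM] at hN ⊢
      refine hN.sub_lp (LP.lsum _ fun p hp => ?_)
      have hsum := foc_sum_map hp (fun o => dV o.1)
      rw [hdV, hM] at hsum
      by_cases hk1 : p.1.1.mk? = true
      · have e1 : M = dme p.1.1 + (p.2.map fun o => dV o.1).sum := by
          have hp1 := hR p.1 (foc_mem hp)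
          have : dV p.1.1 = dme p.1.1 + 2 := by
            revert hk1 hp1
            cases p.1.1 <;> simp [Kd.mk?, dV, dme]
          omega
        rw [e1]
        refine (me_lp θ _ _).mul ?_
        exact LP.prod p.2 (d := fun o => dV o.1) fun o _ => (dvf_lp θ o.1 o.2).mulc _
      · have : ∀ t, me θ p.1.1 p.1.2 t = 0 := by
          intro t
          revert hk1
          cases p.1.1 <;> simp [Kd.mk?, me]
        refine (LP.zero M).congr fun a _ => ?_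
        rw [this, zero_mul]
    · have h3 : ∀ t, curM θ (me θ) os t = (os.map fun o => nf θ o.1 o.2 t).prod := by
        intro t
        unfold curM
        rw [List.sum_eq_zero, sub_zero]
        intro x hx
        obtain ⟨p, hp, rfl⟩ := List.mem_map.1 hx
        have hk1 : ¬ p.1.1.mk? = true := fun hk => h ⟨p.1, foc_mem hp, hk⟩
        have : me θ p.1.1 p.1.2 t = 0 := by
          revert hk1
          cases p.1.1 <;> simp [Kd.mk?, me]
        rw [this, zero_mul]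
      exact hN.congr fun a _ => h3 a
  obtain ⟨g, hg, hgc⟩ := cur_core hθ h0 hs
    (fun o ho hk => me_wm (th_ne hθ) (h0 o ho) hk (hR o ho)) hM
  refine ⟨g, ?_, hgc⟩
  rw [← List.prod_map_mul, ← List.prod_map_mul] at hg
  have e1 : (os.map fun o => tN θ o.1 o.2 *
      (if o.1.mk? then 2 * θ ^ 4 * wm θ o.1 o.2 else 1)).prod =
      (os.map fun o => (2 * o.2)⁻¹).prod := by
    rw [List.map_congr_left fun o ho => phase_top hθ (h0 o ho) (hR o ho),
      prod_zpow (th_ne hθ) os ch (fun c => (2 * c)⁻¹), hch, zpow_zero, one_mul]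
  have e2 : (os.map fun o => bN θ o.1 o.2 *
      (if o.1.mk? then -(2 * θ ^ 4 / wm θ o.1 o.2) else 1)).prod =
      (os.map fun o => o.2 / 2).prod := by
    rw [List.map_congr_left fun o ho => phase_bot hθ (h0 o ho) (hR o ho),
      prod_zpow (th_ne hθ) os (fun κ => -ch κ) (fun c => c / 2)]
    have : (os.map fun o => -ch o.1).sum = 0 := by
      have h5 : ∀ l : List (Kd × ℂ), (l.map fun o => -ch o.1).sum = -(l.map fun o => ch o.1).sum := by
        intro l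
        induction l with
        | nil => simp
        | cons o l ih => simp only [List.map_cons, List.sum_cons, ih]; ring
      rw [h5, hch, neg_zero]
    rw [this, zpow_zero, one_mul]
  rw [e1, e2] at hg
  exact hg

/-- **D1** for an occupied line below the empty line `r` -/
theorem cur_o {θ : ℂ} (hθ : θ ^ 8 = -1) {r : ℂ} {os : List (Kd × ℂ)}
    (h0 : ∀ o ∈ ((Kd.R, r) :: os), o.2 ≠ 0)
    (hs : ((Kd.R, r) :: os).Pairwise fun o o' => Sp θ o.2 o'.2) (hR : ∀ o ∈ os, o.1 ≠ .R)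
    (hch : (os.map fun o => ch o.1).sum = -1) :
    ∃ g : ℂ → ℂ, LP os.length g ∧
      ∀ t, t ≠ 0 → (∀ o ∈ ((Kd.R, r) :: os), df θ o.1 o.2 t ≠ 0) →
        curc θ (mo θ) ((Kd.R, r) :: os) t = g t := by
  have hdV : (((Kd.R, r) :: os).map fun o => dV o.1).sum =
      (((Kd.R, r) :: os).map fun o => dN o.1).sum + 1 := by
    have := sum_dV ((Kd.R, r) :: os)
    have h3 : (((Kd.R, r) :: os).map fun o => ch o.1).sum = 1 := by
      rw [List.map_cons, List.sum_cons, hch]; rfl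
    rw [h3] at this
    omega
  have hlen : (((Kd.R, r) :: os).map fun o => dN o.1).sum =
      os.length + (mks θ ((Kd.R, r) :: os)).length := by
    have := len_mks θ hR
    have e : (mks θ ((Kd.R, r) :: os)).length = 1 + (mks θ os).length := by
      simp [mks, List.filter_cons, Kd.mk?]; ring
    rw [List.map_cons, List.sum_cons, this, e]
    have : dN Kd.R = 1 := rfl
    rw [this]; ring
  have hN := LQ.prod ((Kd.R, r) :: os) (f := fun o => nf θ o.1 o.2) (d := fun o => dN o.1)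
    (u := fun o => tN θ o.1 o.2) (v := fun o => bN θ o.1 o.2) (fun o _ => nf_lq θ o.1 o.2)
  have hM : LP (((Kd.R, r) :: os).map fun o => dN o.1).sum (curM θ (mo θ) ((Kd.R, r) :: os)) := by
    refine hN.lp.sub (LP.lsum _ fun p hp => ?_)
    have hsum := foc_sum_map hp (fun o => dV o.1)
    rw [hdV] at hsum
    by_cases hk1 : p.1.1.mk? = true
    · have e1 : (((Kd.R, r) :: os).map fun o => dN o.1).sum =
          dmo p.1.1 + (p.2.map fun o => dV o.1).sum := by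
        have : dV p.1.1 = dmo p.1.1 + 1 := by
          revert hk1
          cases p.1.1 <;> simp [Kd.mk?, dV, dmo]
        omega
      rw [e1]
      refine (mo_lp θ _ _).mul ?_
      exact LP.prod p.2 (d := fun o => dV o.1) fun o _ => (dvf_lp θ o.1 o.2).mulc _
    · have : ∀ t, mo θ p.1.1 p.1.2 t = 0 := by
        intro t
        revert hk1
        cases p.1.1 <;> simp [Kd.mk?, mo]
      refine (LP.zero _).congr fun a _ => ?_
      rw [this, zero_mul]
  rw [hlen] at hM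
  obtain ⟨P, hP1, hP2⟩ := hM
  obtain ⟨g, hg, hgc⟩ := cur_core hθ h0 hs (μ := mo θ)
    (fun o ho hk => mo_wm (th_ne hθ) (h0 o ho) hk) (M := os.length)
    ⟨P, hP1, rfl, rfl, hP2⟩
  exact ⟨g, hg.lp, hgc⟩

end NUTG

end
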