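import Pool.Agent.NUTG.Foc

/-!
# Two currents of one side: near-near = far-far

`Cc θ u = cos d / (sin (d + 3 λ) sin (3 λ - d))`, `u = e ^ (i d)`.
-/

set_option autoImplicit false

open Polynomial

noncomputable section

namespace NUTG

open NUTP

/-- the coupling of two currents -/
def Cc (θ u : ℂ) : ℂ := cs u / (NUTP.sn θ 3 u * NUTP.sn θ 3 u⁻¹)

lemma Cc_inv (θ u : ℂ) : Cc θ u⁻¹ = Cc θ u := by
  unfold Cc cs
  rw [inv_inv, add_comm, mul_comm (NUTP.sn θ 3 u⁻¹)]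

lemma sn_eq_zero {θ : ℂ} (hθ : θ ≠ 0) {k : ℕ} {u : ℂ} (hu : u ≠ 0) :
    NUTP.sn θ k u = 0 ↔ θ ^ (2 * k) * u ^ 2 = 1 := by
  unfold NUTP.sn
  have h1 : θ ^ k * u ≠ 0 := mul_ne_zero (pow_ne_zero _ hθ) hu
  rw [div_eq_zero_iff]
  have h2 : (2 * θ ^ 4 : ℂ) ≠ 0 := mul_ne_zero two_ne_zero (pow_ne_zero _ hθ)
  simp only [h2, or_false]
  rw [sub_eq_zero]
  constructor
  · intro h
    have := congrArg (fun x => x * (θ ^ k * u)) h
    simp only [inv_mul_cancel₀ h1] at this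
    rw [← this]; ring
  · intro h
    exact eq_inv_of_mul_eq_one_left (by rw [← h]; ring)

lemma sn_inv (θ u : ℂ) : NUTP.sn θ 0 u⁻¹ = -NUTP.sn θ 0 u := by
  unfold NUTP.sn; rw [pow_zero, one_mul, one_mul, inv_inv]; ring

/-- one pole moved: `sin (z + 3 λ)` as a factor `sin (z - z')` -/
lemma sn3_eq {θ : ℂ} (hθ : θ ≠ 0) (u v : ℂ) (hv : v ≠ 0) :
    NUTP.sn θ 3 (u / v) = NUTP.sn θ 0 (u / (v / θ ^ 3)) := by
  unfold NUTP.sn
  rw [pow_zero, one_mul]
  have : u / (v / θ ^ 3) = θ ^ 3 * (u / v) := by field_simp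
  rw [this]

lemma sn3_inv_eq {θ : ℂ} (hθ : θ ≠ 0) (u v : ℂ) (hu : u ≠ 0) (hv : v ≠ 0) :
    NUTP.sn θ 3 (u / v)⁻¹ = -NUTP.sn θ 0 (u / (v * θ ^ 3)) := by
  unfold NUTP.sn
  rw [pow_zero, one_mul]
  have : θ ^ 3 * (u / v)⁻¹ = (u / (v * θ ^ 3))⁻¹ := by field_simp
  rw [this, inv_inv]
  ring

variable {ι κ : Type*} [DecidableEq ι] [DecidableEq κ]

/-- residue of `f / ∏ sin (w - p)` at `p` -/
def rs (θ : ℂ) (f : ℂ → ℂ) (s : Finset ι) (p : ι → ℂ) (i : ι) : ℂ :=
  f (p i) / ∏ j ∈ s.erase i, NUTP.sn θ 0 (p i / p j)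

/-- the sum over all `w` for a fixed `v` -/
lemma sum_C {θ : ℂ} (hθ : θ ^ 8 = -1) (s : Finset ι) (p : ι → ℂ) (h0 : ∀ i ∈ s, p i ≠ 0)
    (hinj : Set.InjOn (fun i => p i ^ 2) s) {f : ℂ → ℂ} {m : ℕ} (hf : LP m f)
    (hm : s.card = m + 1) {v : ℂ} (hv : v ≠ 0)
    (h1 : ∀ i ∈ s, p i ^ 2 ≠ (v / θ ^ 3) ^ 2) (h2 : ∀ i ∈ s, p i ^ 2 ≠ (v * θ ^ 3) ^ 2) :
    ∑ i ∈ s, rs θ f s p i * Cc θ (p i / v) =
      cs (θ ^ 3) / NUTP.sn θ 0 (θ ^ 6) * (f (v * θ ^ 3) / ∏ j ∈ s, NUTP.sn θ 0 (v * θ ^ 3 / p j)) -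
      cs (θ ^ 3) / NUTP.sn θ 0 (θ ^ 6) *
        (f (v / θ ^ 3) / ∏ j ∈ s, NUTP.sn θ 0 (v / θ ^ 3 / p j)) := by
  have hθ0 : θ ≠ 0 := by rintro rfl; norm_num at hθ
  have h3 : θ ^ 3 ≠ 0 := pow_ne_zero _ hθ0
  -- nodes: `some (some i)`, `some none = v - 3 λ`, `none = v + 3 λ`
  let q : Option (Option ι) → ℂ := fun o => o.elim (v * θ ^ 3) (fun o => o.elim (v / θ ^ 3) p)
  have hne : (v / θ ^ 3) ^ 2 ≠ (v * θ ^ 3) ^ 2 := by
    intro h
    have h5 : θ ^ 12 = 1 := by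
      have : (v / θ ^ 3) ^ 2 * (θ ^ 3) ^ 2 = v ^ 2 := by field_simp
      have h6 : v ^ 2 * (θ ^ 12) = v ^ 2 * 1 := by
        rw [mul_one]
        nth_rewrite 2 [← this]
        rw [h]; ring
      exact mul_left_cancel₀ (pow_ne_zero 2 hv) h6
    have h7 : θ ^ 4 = -1 := by
      have : θ ^ 12 = θ ^ 8 * θ ^ 4 := by ring
      rw [this, hθ] at h5
      linear_combination -h5
    have h8 : θ ^ 8 = 1 := by
      have : θ ^ 8 = (θ ^ 4) ^ 2 := by ring
      rw [this, h7]; norm_num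
    rw [hθ] at h8
    norm_num at h8
  have hS : ∀ i ∈ (Finset.insertNone (Finset.insertNone s)), q i ≠ 0 := by
    intro i hi
    rcases i with _ | _ | i
    · exact mul_ne_zero hv h3
    · exact div_ne_zero hv h3
    · exact h0 i (by simpa using hi)
  have hI : Set.InjOn (fun i => q i ^ 2) (Finset.insertNone (Finset.insertNone s)) := by
    intro i hi j hj hij
    rcases i with _ | _ | i <;> rcases j with _ | _ | j
    · rfl
    · exact absurd hij.symm hne
    · exact absurd hij.symm (h2 j (by simpa using hj))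
    · exact absurd hij hne
    · rfl
    · exact absurd hij.symm (h1 j (by simpa using hj))
    · exact absurd hij (h2 i (by simpa using hi))
    · exact absurd hij (h1 i (by simpa using hi))
    · have := hinj (by simpa using hi) (by simpa using hj) hij
      rw [this]
  have hcard : (Finset.insertNone (Finset.insertNone s)).card = (m + 1) + 2 + 2 * 0 := by
    rw [Finset.card_insertNone, Finset.card_insertNone, hm]
  have key := res_sum hθ0 _ q hS hI (hf.mul (LP.cs v)) hcard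
  rw [Finset.sum_insertNone, Finset.sum_insertNone] at key
  have E0 : (Finset.insertNone (Finset.insertNone s)).erase none =
      (Finset.insertNone s).map Function.Embedding.some := by
    ext o; rcases o with _ | o <;> simp
  have E1 : (Finset.insertNone (Finset.insertNone s)).erase (some none) =
      insert none (s.map (Function.Embedding.some.trans Function.Embedding.some)) := by
    ext o; rcases o with _ | _ | o <;> simp
  have E2 : ∀ i, (Finset.insertNone (Finset.insertNone s)).erase (some (some i)) =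
      Finset.insertNone (Finset.insertNone (s.erase i)) := by
    intro i
    ext o; rcases o with _ | _ | o <;> simp
  have e0 : ∏ j ∈ (Finset.insertNone (Finset.insertNone s)).erase none,
      NUTP.sn θ 0 (q none / q j) =
      NUTP.sn θ 0 (θ ^ 6) * ∏ j ∈ s, NUTP.sn θ 0 (v * θ ^ 3 / p j) := by
    rw [E0, Finset.prod_map, Finset.prod_insertNone]
    congr 2
    change v * θ ^ 3 / (v / θ ^ 3) = _
    field_simp
  have e1 : ∏ j ∈ (Finset.insertNone (Finset.insertNone s)).erase (some none),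
      NUTP.sn θ 0 (q (some none) / q j) =
      -NUTP.sn θ 0 (θ ^ 6) * ∏ j ∈ s, NUTP.sn θ 0 (v / θ ^ 3 / p j) := by
    rw [E1, Finset.prod_insert (by simp), Finset.prod_map]
    congr 1
    rw [← sn_inv]
    congr 1
    change (v / θ ^ 3) / (v * θ ^ 3) = _
    field_simp
  have e2 : ∀ i ∈ s, ∏ j ∈ (Finset.insertNone (Finset.insertNone s)).erase (some (some i)),
      NUTP.sn θ 0 (q (some (some i)) / q j) =
      -(NUTP.sn θ 3 (p i / v)⁻¹ * NUTP.sn θ 3 (p i / v)) *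
        ∏ j ∈ s.erase i, NUTP.sn θ 0 (p i / p j) := by
    intro i hi
    rw [E2, Finset.prod_insertNone, Finset.prod_insertNone]
    have a1 : NUTP.sn θ 0 (q (some (some i)) / q none) = -NUTP.sn θ 3 (p i / v)⁻¹ := by
      rw [sn3_inv_eq hθ0 _ _ (h0 i hi) hv, neg_neg]; rfl
    have a2 : NUTP.sn θ 0 (q (some (some i)) / q (some none)) = NUTP.sn θ 3 (p i / v) := by
      rw [sn3_eq hθ0 _ _ hv]; rfl
    rw [a1, a2]
    ring_nf
    rfl
  rw [e0, e1, Finset.sum_congr rfl (fun i hi => by rw [e2 i hi])] at key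
  have q0 : q none = v * θ ^ 3 := rfl
  have q1 : q (some none) = v / θ ^ 3 := rfl
  have q2 : ∀ i, q (some (some i)) = p i := fun i => rfl
  have c0 : cs (v * θ ^ 3 / v) = cs (θ ^ 3) := by congr 1; field_simp
  have c1 : cs (v / θ ^ 3 / v) = cs (θ ^ 3) := by
    have : v / θ ^ 3 / v = (θ ^ 3)⁻¹ := by field_simp
    rw [this]; unfold cs; rw [inv_inv, add_comm]
  simp only [q0, q1, q2, c0, c1] at key
  have t2 : ∑ i ∈ s, rs θ f s p i * Cc θ (p i / v) = -∑ x ∈ s, f (p x) * cs (p x / v) /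
      (-(NUTP.sn θ 3 (p x / v)⁻¹ * NUTP.sn θ 3 (p x / v)) *
        ∏ j ∈ s.erase x, NUTP.sn θ 0 (p x / p j)) := by
    rw [← Finset.sum_neg_distrib]
    refine Finset.sum_congr rfl fun i _ => ?_
    unfold rs Cc
    rw [neg_mul, div_neg, neg_neg, div_mul_div_comm]
    congr 1
    ring
  rw [t2]
  rw [neg_mul, div_neg] at key
  rw [div_mul_div_comm, div_mul_div_comm]
  linear_combination (-1 : ℂ) * key

lemma erase_inl {s : Finset ι} {t : Finset κ} (j : κ) :
    (t.disjSum s).erase (Sum.inl j) = (t.erase j).disjSum s := by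
  ext o; rcases o with o | o <;> simp

lemma erase_inr {s : Finset ι} {t : Finset κ} (i : ι) :
    (t.disjSum s).erase (Sum.inr i) = t.disjSum (s.erase i) := by
  ext o; rcases o with o | o <;> simp

/-- **near-near = far-far** -/
theorem dbl {θ : ℂ} (hθ : θ ^ 8 = -1) (s : Finset ι) (t : Finset κ) (p : ι → ℂ) (r : κ → ℂ)
    (nr : ι → Prop) (nr' : κ → Prop) [DecidablePred nr] [DecidablePred nr']
    (h0 : ∀ i ∈ s, p i ≠ 0) (h0' : ∀ j ∈ t, r j ≠ 0)
    (hinj : Set.InjOn (fun i => p i ^ 2) s) (hinj' : Set.InjOn (fun j => r j ^ 2) t)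
    {f g : ℂ → ℂ} {m n : ℕ} (hf : LP m f) (hg : LP n g) (hm : s.card = m + 1)
    (hn : t.card = n + 1)
    (h1 : ∀ i ∈ s, ∀ j ∈ t, p i ^ 2 ≠ (r j / θ ^ 3) ^ 2)
    (h2 : ∀ i ∈ s, ∀ j ∈ t, p i ^ 2 ≠ (r j * θ ^ 3) ^ 2)
    (z1 : ∀ j ∈ t, nr' j → f (r j / θ ^ 3) = 0) (z2 : ∀ j ∈ t, ¬ nr' j → f (r j * θ ^ 3) = 0)
    (z3 : ∀ i ∈ s, nr i → g (p i / θ ^ 3) = 0) (z4 : ∀ i ∈ s, ¬ nr i → g (p i * θ ^ 3) = 0) :
    ∑ i ∈ s with nr i, ∑ j ∈ t with nr' j, rs θ f s p i * rs θ g t r j * Cc θ (p i / r j) =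
      ∑ i ∈ s with ¬ nr i, ∑ j ∈ t with ¬ nr' j,
        rs θ f s p i * rs θ g t r j * Cc θ (p i / r j) := by
  have hθ0 : θ ≠ 0 := by rintro rfl; norm_num at hθ
  have h3 : θ ^ 3 ≠ 0 := pow_ne_zero _ hθ0
  set ρ := cs (θ ^ 3) / NUTP.sn θ 0 (θ ^ 6) with hρ
  -- first current moved
  have A1 : ∀ j ∈ t, nr' j → ∑ i ∈ s, rs θ f s p i * Cc θ (p i / r j) =
      ρ * (f (r j * θ ^ 3) / ∏ i ∈ s, NUTP.sn θ 0 (r j * θ ^ 3 / p i)) := by
    intro j hj hnj
    rw [sum_C hθ s p h0 hinj hf hm (h0' j hj) (fun i hi => h1 i hi j hj)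
      (fun i hi => h2 i hi j hj), z1 j hj hnj]
    ring
  -- second current moved
  have A2 : ∀ i ∈ s, ¬ nr i → ∑ j ∈ t, rs θ g t r j * Cc θ (p i / r j) =
      -(ρ * (g (p i / θ ^ 3) / ∏ j ∈ t, NUTP.sn θ 0 (p i / θ ^ 3 / r j))) := by
    intro i hi hni
    have e : ∀ j ∈ t, rs θ g t r j * Cc θ (p i / r j) = rs θ g t r j * Cc θ (r j / p i) := by
      intro j _
      rw [← Cc_inv, inv_div]
    rw [Finset.sum_congr rfl e, sum_C hθ t r h0' hinj' hg hn (h0 i hi)
      (fun j hj h => h2 i hi j hj (by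
        rw [mul_pow, h, div_pow, div_mul_cancel₀ _ (pow_ne_zero _ h3)]))
      (fun j hj h => h1 i hi j hj (by
        rw [div_pow, h, mul_pow, mul_div_cancel_right₀ _ (pow_ne_zero _ h3)])), z4 i hi hni]
    ring
  -- third identity
  have key : ∑ j ∈ t, rs θ g t r j * (f (r j * θ ^ 3) /
        ∏ i ∈ s, NUTP.sn θ 0 (r j * θ ^ 3 / p i)) +
      ∑ i ∈ s, rs θ f s p i * (g (p i / θ ^ 3) / ∏ j ∈ t, NUTP.sn θ 0 (p i / θ ^ 3 / r j)) = 0 := by
    let q : κ ⊕ ι → ℂ := Sum.elim r (fun i => p i / θ ^ 3)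
    have hq0 : ∀ o ∈ t.disjSum s, q o ≠ 0 := by
      intro o ho
      rcases o with j | i
      · exact h0' j (by simpa using ho)
      · exact div_ne_zero (h0 i (by simpa using ho)) h3
    have hqI : Set.InjOn (fun o => q o ^ 2) (t.disjSum s) := by
      intro o ho o' ho' h
      rcases o with j | i <;> rcases o' with j' | i'
      · rw [hinj' (by simpa using ho) (by simpa using ho') h]
      · exfalso
        apply h2 i' (by simpa using ho') j (by simpa using ho)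
        change r j ^ 2 = (p i' / θ ^ 3) ^ 2 at h
        rw [mul_pow, h, div_pow, div_mul_cancel₀ _ (pow_ne_zero _ h3)]
      · exfalso
        apply h2 i (by simpa using ho) j' (by simpa using ho')
        change (p i / θ ^ 3) ^ 2 = r j' ^ 2 at h
        rw [mul_pow, ← h, div_pow, div_mul_cancel₀ _ (pow_ne_zero _ h3)]
      · change (p i / θ ^ 3) ^ 2 = (p i' / θ ^ 3) ^ 2 at h
        rw [div_pow, div_pow, div_left_inj' (pow_ne_zero _ h3)] at h
        rw [hinj (by simpa using ho) (by simpa using ho') h]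
    have hcard : (t.disjSum s).card = (n + m) + 2 + 2 * 0 := by
      rw [Finset.card_disjSum, hm, hn]; ring
    have hfs : LP m (fun a => f (a * θ ^ 3)) := (hf.scale h3).congr fun a _ => by rw [mul_comm]
    have h := res_sum hθ0 _ q hq0 hqI (hg.mul hfs) hcard
    rw [Finset.sum_disjSum] at h
    rw [← h]
    congr 1
    · refine Finset.sum_congr rfl fun j _ => ?_
      rw [erase_inl, Finset.prod_disjSum]
      unfold rs
      rw [div_mul_div_comm]
      congr 2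
      refine Finset.prod_congr rfl fun i _ => ?_
      congr 1
      change _ = r j / (p i / θ ^ 3)
      field_simp
    · refine Finset.sum_congr rfl fun i _ => ?_
      rw [erase_inr, Finset.prod_disjSum]
      unfold rs
      rw [div_mul_div_comm]
      congr 1
      · change _ = g (p i / θ ^ 3) * f (p i / θ ^ 3 * θ ^ 3)
        rw [div_mul_cancel₀ _ h3, mul_comm]
      · rw [mul_comm]
        congr 1
        refine Finset.prod_congr rfl fun i' _ => ?_
        congr 1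
        change _ = (p i / θ ^ 3) / (p i' / θ ^ 3)
        rw [div_div_div_cancel_right₀ h3]
  -- restrict the third identity
  have key' : ∑ j ∈ t with nr' j, rs θ g t r j * (f (r j * θ ^ 3) /
        ∏ i ∈ s, NUTP.sn θ 0 (r j * θ ^ 3 / p i)) +
      ∑ i ∈ s with ¬ nr i,
        rs θ f s p i * (g (p i / θ ^ 3) / ∏ j ∈ t, NUTP.sn θ 0 (p i / θ ^ 3 / r j)) = 0 := by
    rw [← key]
    congr 1
    · rw [Finset.sum_filter]
      refine Finset.sum_congr rfl fun j hj => ?_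
      split_ifs with h
      · rfl
      · rw [z2 j hj h]; simp
    · rw [Finset.sum_filter]
      refine Finset.sum_congr rfl fun i hi => ?_
      by_cases h : nr i
      · rw [if_neg (not_not.2 h), z3 i hi h]; simp
      · rw [if_pos h]
  -- conclusion
  have B1 : ∑ i ∈ s with nr i, ∑ j ∈ t with nr' j, rs θ f s p i * rs θ g t r j * Cc θ (p i / r j) =
      ∑ j ∈ t with nr' j, rs θ g t r j * ∑ i ∈ s, rs θ f s p i * Cc θ (p i / r j) -
      ∑ i ∈ s with ¬ nr i, ∑ j ∈ t with nr' j,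
        rs θ f s p i * rs θ g t r j * Cc θ (p i / r j) := by
    have : ∑ j ∈ t with nr' j, rs θ g t r j * ∑ i ∈ s, rs θ f s p i * Cc θ (p i / r j) =
        ∑ i ∈ s, ∑ j ∈ t with nr' j, rs θ f s p i * rs θ g t r j * Cc θ (p i / r j) := by
      rw [Finset.sum_comm]
      refine Finset.sum_congr rfl fun j _ => ?_
      rw [Finset.mul_sum]
      refine Finset.sum_congr rfl fun i _ => by ring
    rw [this, ← Finset.sum_filter_add_sum_filter_not s nr]
    ring
  have B2 : ∑ i ∈ s with ¬ nr i, ∑ j ∈ t with nr' j,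
        rs θ f s p i * rs θ g t r j * Cc θ (p i / r j) =
      ∑ i ∈ s with ¬ nr i, rs θ f s p i * ∑ j ∈ t, rs θ g t r j * Cc θ (p i / r j) -
      ∑ i ∈ s with ¬ nr i, ∑ j ∈ t with ¬ nr' j,
        rs θ f s p i * rs θ g t r j * Cc θ (p i / r j) := by
    rw [← Finset.sum_sub_distrib]
    refine Finset.sum_congr rfl fun i _ => ?_
    rw [← Finset.sum_filter_add_sum_filter_not t nr', mul_add, Finset.mul_sum, Finset.mul_sum]
    simp only [mul_assoc]
    ring
  rw [B1, B2]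
  have C1 : ∑ j ∈ t with nr' j, rs θ g t r j * ∑ i ∈ s, rs θ f s p i * Cc θ (p i / r j) =
      ρ * ∑ j ∈ t with nr' j, rs θ g t r j * (f (r j * θ ^ 3) /
        ∏ i ∈ s, NUTP.sn θ 0 (r j * θ ^ 3 / p i)) := by
    rw [Finset.mul_sum]
    refine Finset.sum_congr rfl fun j hj => ?_
    rw [Finset.mem_filter] at hj
    rw [A1 j hj.1 hj.2]; ring
  have C2 : ∑ i ∈ s with ¬ nr i, rs θ f s p i * ∑ j ∈ t, rs θ g t r j * Cc θ (p i / r j) =
      -(ρ * ∑ i ∈ s with ¬ nr i,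
        rs θ f s p i * (g (p i / θ ^ 3) / ∏ j ∈ t, NUTP.sn θ 0 (p i / θ ^ 3 / r j))) := by
    rw [Finset.mul_sum, ← Finset.sum_neg_distrib]
    refine Finset.sum_congr rfl fun i hi => ?_
    rw [Finset.mem_filter] at hi
    rw [A2 i hi.1 hi.2]; ring
  rw [C1, C2]
  linear_combination ρ * key'

end NUTG

end
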