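import Pool.Agent.NUTG.Dbl

/-!
# Near and far poles, list forms
-/

set_option autoImplicit false

open Polynomial

noncomputable section

namespace NUTG

open NUTP

/-- `∏ sin (w - p)` over a list of points -/
def dv (θ : ℂ) (L : List ℂ) (w : ℂ) : ℂ := (L.map fun p => NUTP.sn θ 0 (w / p)).prod

/-- numerator: the poles `A` (near), `B` (far) of the other current -/
def nu (θ : ℂ) (A B : List ℂ) (w : ℂ) : ℂ :=
  (A.map fun a => NUTP.sn θ 3 (w / a)).prod * (B.map fun b => NUTP.sn θ 3 (b / w)).prod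

lemma nu_LP (θ : ℂ) (A B : List ℂ) : LP (A.length + B.length) (nu θ A B) :=
  (LP.prod1 A fun a _ => LP.sn θ 3 a).mul (LP.prod1 B fun b _ => LP.sn' θ 3 b)

lemma dv_perm {θ : ℂ} {L L' : List ℂ} (h : L.Perm L') (w : ℂ) : dv θ L w = dv θ L' w :=
  (h.map _).prod_eq

/-- points with different squares -/
def Dst (L : List ℂ) : Prop := (∀ a ∈ L, a ≠ 0) ∧ L.Pairwise fun a b => a ^ 2 ≠ b ^ 2

/-- list with marks -/
def mk2 (A B : List ℂ) : List (ℂ × Bool) := A.map (fun a => (a, true)) ++ B.map (fun b => (b, false))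

lemma mk2_fst (A B : List ℂ) : (mk2 A B).map Prod.fst = A ++ B := by
  simp [mk2, Function.comp_def]

lemma mk2_len (A B : List ℂ) : (mk2 A B).length = A.length + B.length := by simp [mk2]

lemma foc_mk2 {M : Type*} [AddCommMonoid M] (A B : List ℂ) (H : ℂ → Bool → List ℂ → M) :
    ((foc (mk2 A B)).map fun q => H q.1.1 q.1.2 (q.2.map Prod.fst)).sum =
      ((foc A).map fun q => H q.1 true (q.2 ++ B)).sum +
        ((foc B).map fun q => H q.1 false (A ++ q.2)).sum := by
  rw [mk2, foc_append, foc_map, foc_map, List.map_append, List.sum_append]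
  congr 1
  · rw [List.map_map, List.map_map]
    refine congrArg List.sum (List.map_congr_left fun q _ => ?_)
    simp [Function.comp_def]
  · rw [List.map_map, List.map_map]
    refine congrArg List.sum (List.map_congr_left fun q _ => ?_)
    simp [Function.comp_def]

section fin
variable {θ : ℂ} {A B : List ℂ}

lemma get_sq_inj (h : Dst (A ++ B)) :
    Set.InjOn (fun i : Fin (mk2 A B).length => ((mk2 A B).get i).1 ^ 2)
      (Finset.univ : Finset (Fin (mk2 A B).length)) := by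
  intro i _ j _ hij
  by_contra hne
  have h2 : (mk2 A B).Pairwise fun a b => a.1 ^ 2 ≠ b.1 ^ 2 := by
    have h4 := h.2
    rw [← mk2_fst, List.pairwise_map] at h4
    exact h4
  rcases lt_or_gt_of_ne hne with h3 | h3
  · exact (List.pairwise_iff_get.1 h2 i j h3) hij
  · exact (List.pairwise_iff_get.1 h2 j i h3) hij.symm

lemma get_ne (h : Dst (A ++ B)) (i : Fin (mk2 A B).length) : ((mk2 A B).get i).1 ≠ 0 := by
  apply h.1
  rw [← mk2_fst]
  exact List.mem_map.2 ⟨_, List.get_mem _ i, rfl⟩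

/-- sums over the poles of one kind -/
lemma foc_near {M : Type*} [AddCommMonoid M] (A B : List ℂ) (H : ℂ → ℂ → M) :
    ((foc A).map fun q => H q.1 (dv θ (q.2 ++ B) q.1)).sum =
      ∑ i : Fin (mk2 A B).length with ((mk2 A B).get i).2 = true, H ((mk2 A B).get i).1
        (∏ j ∈ Finset.univ.erase i, NUTP.sn θ 0 (((mk2 A B).get i).1 / ((mk2 A B).get j).1)) := by
  have h := foc_sum_eq (mk2 A B) (fun (c : ℂ × Bool) (m : ℂ) => if c.2 = true then H c.1 m else 0)
    (fun c c' => NUTP.sn θ 0 (c.1 / c'.1))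
  rw [Finset.sum_filter, ← h]
  have h2 := foc_mk2 A B (fun c b L => if b = true then H c (dv θ L c) else 0)
  simp only [if_true, Bool.false_eq_true, if_false, List.map_const', List.sum_replicate,
    smul_zero, add_zero] at h2
  rw [← h2]
  refine congrArg List.sum (List.map_congr_left fun q _ => ?_)
  simp only [dv, List.map_map, Function.comp_def]

lemma foc_far {M : Type*} [AddCommMonoid M] (A B : List ℂ) (H : ℂ → ℂ → M) :
    ((foc B).map fun q => H q.1 (dv θ (A ++ q.2) q.1)).sum =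
      ∑ i : Fin (mk2 A B).length with ¬ ((mk2 A B).get i).2 = true, H ((mk2 A B).get i).1
        (∏ j ∈ Finset.univ.erase i, NUTP.sn θ 0 (((mk2 A B).get i).1 / ((mk2 A B).get j).1)) := by
  have h := foc_sum_eq (mk2 A B) (fun (c : ℂ × Bool) (m : ℂ) => if ¬ c.2 = true then H c.1 m else 0)
    (fun c c' => NUTP.sn θ 0 (c.1 / c'.1))
  rw [Finset.sum_filter, ← h]
  have h2 := foc_mk2 A B (fun c b L => if ¬ b = true then H c (dv θ L c) else 0)
  simp only [not_true_eq_false, if_false, Bool.false_eq_true, not_false_eq_true, if_true,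
    List.map_const', List.sum_replicate, smul_zero, zero_add] at h2
  rw [← h2]
  refine congrArg List.sum (List.map_congr_left fun q _ => ?_)
  simp only [dv, List.map_map, Function.comp_def]

end fin

/-- **one current**: near = - far -/
theorem near_far {θ : ℂ} (hθ : θ ^ 8 = -1) {A B : List ℂ} (h : Dst (A ++ B)) {f : ℂ → ℂ} {m : ℕ}
    (hf : LP m f) (hm : A.length + B.length = m + 2) :
    ((foc A).map fun q => f q.1 / dv θ (q.2 ++ B) q.1).sum =
      -((foc B).map fun q => f q.1 / dv θ (A ++ q.2) q.1).sum := by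
  have hθ0 : θ ≠ 0 := by rintro rfl; norm_num at hθ
  rw [foc_near (θ := θ) A B (fun c m => f c / m), foc_far (θ := θ) A B (fun c m => f c / m)]
  have key := res_sum (k := 0) hθ0 (Finset.univ : Finset (Fin (mk2 A B).length))
    (fun i => ((mk2 A B).get i).1) (fun i _ => get_ne h i) (get_sq_inj h) hf
    (by rw [Finset.card_univ, Fintype.card_fin, mk2_len, hm])
  rw [← Finset.sum_filter_add_sum_filter_not Finset.univ
    (fun i => ((mk2 A B).get i).2 = true)] at key
  exact eq_neg_of_add_eq_zero_left key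

/-- **two currents of one side**: near-near = far-far -/
theorem near_far2 {θ : ℂ} (hθ : θ ^ 8 = -1) {A B A' B' : List ℂ} (h : Dst (A ++ B))
    (h' : Dst (A' ++ B')) {f g : ℂ → ℂ} {m n : ℕ} (hf : LP m f) (hg : LP n g)
    (hm : A.length + B.length = m + 1) (hn : A'.length + B'.length = n + 1)
    (h1 : ∀ w ∈ A ++ B, ∀ v ∈ A' ++ B', w ^ 2 ≠ (v / θ ^ 3) ^ 2)
    (h2 : ∀ w ∈ A ++ B, ∀ v ∈ A' ++ B', w ^ 2 ≠ (v * θ ^ 3) ^ 2)
    (z1 : ∀ v ∈ A', f (v / θ ^ 3) = 0) (z2 : ∀ v ∈ B', f (v * θ ^ 3) = 0)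
    (z3 : ∀ w ∈ A, g (w / θ ^ 3) = 0) (z4 : ∀ w ∈ B, g (w * θ ^ 3) = 0) :
    ((foc A).map fun q => ((foc A').map fun q' => f q.1 / dv θ (q.2 ++ B) q.1 *
      (g q'.1 / dv θ (q'.2 ++ B') q'.1) * Cc θ (q.1 / q'.1)).sum).sum =
    ((foc B).map fun q => ((foc B').map fun q' => f q.1 / dv θ (A ++ q.2) q.1 *
      (g q'.1 / dv θ (A' ++ q'.2) q'.1) * Cc θ (q.1 / q'.1)).sum).sum := by
  have memf : ∀ {A B : List ℂ} (i : Fin (mk2 A B).length), ((mk2 A B).get i).1 ∈ A ++ B := by
    intro A B i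
    rw [← mk2_fst]
    exact List.mem_map.2 ⟨_, List.get_mem _ i, rfl⟩
  have mem12 : ∀ {A B : List ℂ} (c : ℂ × Bool), c ∈ mk2 A B →
      (c.2 = true → c.1 ∈ A) ∧ (¬ c.2 = true → c.1 ∈ B) := by
    intro A B c hc
    rw [mk2, List.mem_append] at hc
    rcases hc with h | h
    · obtain ⟨a, ha, rfl⟩ := List.mem_map.1 h
      exact ⟨fun _ => ha, fun h => by simp at h⟩
    · obtain ⟨a, ha, rfl⟩ := List.mem_map.1 h
      exact ⟨fun h => by simp at h, fun _ => ha⟩
  have mem1 : ∀ {A B : List ℂ} (i : Fin (mk2 A B).length), ((mk2 A B).get i).2 = true →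
      ((mk2 A B).get i).1 ∈ A := fun i hi => (mem12 _ (List.get_mem _ i)).1 hi
  have mem2 : ∀ {A B : List ℂ} (i : Fin (mk2 A B).length), ¬ ((mk2 A B).get i).2 = true →
      ((mk2 A B).get i).1 ∈ B := fun i hi => (mem12 _ (List.get_mem _ i)).2 hi
  have key := dbl hθ (Finset.univ : Finset (Fin (mk2 A B).length))
    (Finset.univ : Finset (Fin (mk2 A' B').length)) (fun i => ((mk2 A B).get i).1)
    (fun i => ((mk2 A' B').get i).1) (fun i => ((mk2 A B).get i).2 = true)
    (fun i => ((mk2 A' B').get i).2 = true) (fun i _ => get_ne h i) (fun i _ => get_ne h' i)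
    (get_sq_inj h) (get_sq_inj h') hf hg
    (by rw [Finset.card_univ, Fintype.card_fin, mk2_len, hm])
    (by rw [Finset.card_univ, Fintype.card_fin, mk2_len, hn])
    (fun i _ j _ => h1 _ (memf i) _ (memf j)) (fun i _ j _ => h2 _ (memf i) _ (memf j))
    (fun j _ hj => z1 _ (mem1 j hj)) (fun j _ hj => z2 _ (mem2 j hj))
    (fun j _ hj => z3 _ (mem1 j hj)) (fun j _ hj => z4 _ (mem2 j hj))
  have e1 := foc_near (θ := θ) A B (fun c m => ((foc A').map fun q' => f c / m *
      (g q'.1 / dv θ (q'.2 ++ B') q'.1) * Cc θ (c / q'.1)).sum)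
  have e2 := foc_far (θ := θ) A B (fun c m => ((foc B').map fun q' => f c / m *
      (g q'.1 / dv θ (A' ++ q'.2) q'.1) * Cc θ (c / q'.1)).sum)
  rw [e1, e2]
  have e3 : ∀ c m, ((foc A').map fun q' => f c / m *
      (g q'.1 / dv θ (q'.2 ++ B') q'.1) * Cc θ (c / q'.1)).sum = _ :=
    fun c m => foc_near (θ := θ) A' B' (fun d m' => f c / m * (g d / m') * Cc θ (c / d))
  have e4 : ∀ c m, ((foc B').map fun q' => f c / m *
      (g q'.1 / dv θ (A' ++ q'.2) q'.1) * Cc θ (c / q'.1)).sum = _ :=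
    fun c m => foc_far (θ := θ) A' B' (fun d m' => f c / m * (g d / m') * Cc θ (c / d))
  simp only [e3, e4]
  exact key

end NUTG

end
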