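import Pool.Agent.NUTG.LP

/-!
# One element of a list singled out

`foc L`: all pairs (element, the other elements).  `res_foc`: the sum of the residues of a product of
factors indexed by a list.
-/

set_option autoImplicit false

open Polynomial

noncomputable section

namespace NUTG

open NUTP

/-- all ways to single out one element of a list -/
def foc {α : Type*} : List α → List (α × List α)
  | [] => []
  | x :: L => (x, L) :: (foc L).map (fun p => (p.1, x :: p.2))

lemma foc_perm_cons {α : Type*} {L : List α} {p : α × List α} (h : p ∈ foc L) :
    L.Perm (p.1 :: p.2) := by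
  induction L generalizing p with
  | nil => simp [foc] at h
  | cons x L ih =>
    rcases List.mem_cons.1 h with rfl | h
    · exact List.Perm.refl _
    · obtain ⟨q, hq, rfl⟩ := List.mem_map.1 h
      exact ((ih hq).cons x).trans (List.Perm.swap _ _ _)

lemma foc_mem {α : Type*} {L : List α} {p : α × List α} (h : p ∈ foc L) : p.1 ∈ L :=
  (foc_perm_cons h).mem_iff.2 List.mem_cons_self

lemma foc_mem_rest {α : Type*} {L : List α} {p : α × List α} (h : p ∈ foc L) {x : α}
    (hx : x ∈ p.2) : x ∈ L :=
  (foc_perm_cons h).mem_iff.2 (List.mem_cons_of_mem _ hx)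

lemma foc_map {α β : Type*} (f : α → β) (L : List α) :
    foc (L.map f) = (foc L).map (fun p => (f p.1, p.2.map f)) := by
  induction L with
  | nil => rfl
  | cons x L ih => simp [foc, ih, Function.comp_def]

lemma foc_append {α : Type*} (L L' : List α) :
    foc (L ++ L') = (foc L).map (fun p => (p.1, p.2 ++ L')) ++
      (foc L').map (fun p => (p.1, L ++ p.2)) := by
  induction L with
  | nil => simp [foc]
  | cons x L ih => simp [foc, ih, Function.comp_def]

/-- the sum over `foc L` of a function depending on the rest only up to permutation is invariant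
under permutations of `L` -/
lemma foc_sum_perm {α M : Type*} [AddCommMonoid M] {L L' : List α} (h : L.Perm L')
    (H : α → List α → M) (hH : ∀ x A B, A.Perm B → H x A = H x B) :
    ((foc L).map (fun p => H p.1 p.2)).sum = ((foc L').map (fun p => H p.1 p.2)).sum := by
  induction h generalizing H with
  | nil => rfl
  | cons x h ih =>
    simp only [foc, List.map_cons, List.sum_cons, List.map_map, Function.comp_def]
    rw [hH x _ _ h, ih (fun y A => H y (x :: A)) fun y A B hAB => hH y _ _ (hAB.cons x)]
  | swap x y L =>
    simp only [foc, List.map_cons, List.sum_cons, List.map_map, Function.comp_def]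
    rw [← add_assoc, ← add_assoc, add_comm (H y _)]
    congr 2
    refine List.map_congr_left fun p _ => hH _ _ _ (List.Perm.swap _ _ _)
  | trans _ _ ih1 ih2 => exact (ih1 H hH).trans (ih2 H hH)

lemma foc_sum_eq {α M : Type*} [AddCommMonoid M] {N : Type*} [CommMonoid N] (L : List α)
    (H : α → N → M) (φ : α → α → N) :
    ((foc L).map (fun p => H p.1 ((p.2.map (φ p.1)).prod))).sum =
      ∑ i : Fin L.length, H (L.get i) (∏ j ∈ Finset.univ.erase i, φ (L.get i) (L.get j)) := by
  suffices h : ∀ (H : α → N → M) (L : List α),
      ((foc L).map (fun p => H p.1 ((p.2.map (φ p.1)).prod))).sum =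
      ∑ i : Fin L.length, H (L.get i) (∏ j ∈ Finset.univ.erase i, φ (L.get i) (L.get j)) from h H L
  intro H L
  induction L generalizing H with
  | nil => simp [foc]
  | cons x L ih =>
    rw [foc]
    simp only [List.map_cons, List.sum_cons, List.map_map, Function.comp_def, List.prod_cons]
    refine Eq.trans ?_ (Fin.sum_univ_succ (n := L.length) _).symm
    congr 1
    · congr 1
      have : (Finset.univ.erase (0 : Fin (x :: L).length)) = Finset.univ.map (Fin.succEmb L.length) := by
        ext j
        simp only [Finset.mem_erase, Finset.mem_univ, and_true, Finset.mem_map, true_and,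
          Fin.coe_succEmb]
        constructor
        · intro h; exact ⟨j.pred h, Fin.succ_pred _ _⟩
        · rintro ⟨k, rfl⟩; exact Fin.succ_ne_zero _
      rw [this, Finset.prod_map]
      simp only [Fin.coe_succEmb, List.get_eq_getElem, Fin.val_zero, List.getElem_cons_zero,
        Fin.val_succ, List.getElem_cons_succ]
      rw [← List.prod_ofFn]
      congr 1
      apply List.ext_getElem
      · simp
      · intro n h1 h2; simp
    · rw [ih (fun y m => H y (φ y x * m))]
      refine Finset.sum_congr rfl fun i _ => ?_
      have : (Finset.univ.erase (i.succ : Fin (x :: L).length)) =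
          insert 0 ((Finset.univ.erase i).map (Fin.succEmb L.length)) := by
        ext j
        simp only [Finset.mem_erase, Finset.mem_univ, and_true, Finset.mem_insert, Finset.mem_map,
          Fin.coe_succEmb]
        constructor
        · intro h
          rcases eq_or_ne j 0 with h0 | h0
          · left; exact h0
          · right
            refine ⟨j.pred h0, fun h1 => h ?_, Fin.succ_pred _ _⟩
            rw [← h1, Fin.succ_pred]
        · rintro (rfl | ⟨k, hk, rfl⟩)
          · exact (Fin.succ_ne_zero _).symm
          · exact fun h => hk (Fin.succ_injective _ h)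
      rw [this, Finset.prod_insert, Finset.prod_map]
      · rfl
      · simp only [Finset.mem_map, not_exists, not_and]
        intro k _ h
        exact Fin.succ_ne_zero _ h

/-- **sum of the residues**, list form: the factors are `n_i / sin (w - w_i)` for `i` with a pole
and `n_i` for `i` without pole -/
lemma res_foc {α : Type*} {θ : ℂ} (hθ : θ ≠ 0) (L : List α) (pole : α → Prop)
    [DecidablePred pole] (c : α → ℂ) (n : α → ℂ → ℂ) (d : α → ℕ) (hn : ∀ i ∈ L, LP (d i) (n i))
    (h0 : ∀ i ∈ L, pole i → c i ≠ 0)
    (hinj : L.Pairwise fun i j => pole i → pole j → c i ^ 2 ≠ c j ^ 2) {k : ℕ}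
    (hM : (L.filter (fun i => decide (pole i))).length = (L.map d).sum + 2 + 2 * k) :
    ((foc L).map (fun p => if pole p.1 then n p.1 (c p.1) * (p.2.map fun j =>
      (if pole j then n j (c p.1) / NUTP.sn θ 0 (c p.1 / c j) else n j (c p.1))).prod
        else 0)).sum = 0 := by
  rw [foc_sum_eq L (fun i m => if pole i then n i (c i) * m else 0) (fun i j =>
      (if pole j then n j (c i) / NUTP.sn θ 0 (c i / c j) else n j (c i)))]
  rw [← Finset.sum_filter]
  refine res_prod hθ Finset.univ (fun i : Fin L.length => pole (L.get i)) (fun i => c (L.get i))
    (fun i => n (L.get i)) (fun i => d (L.get i)) (fun i _ => hn _ (L.get_mem i))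
    (fun i _ => h0 _ (L.get_mem i)) ?_ (k := k) ?_
  · intro i _ j _ hi hj hij
    by_contra h
    rcases lt_or_gt_of_ne h with h | h
    · exact (List.pairwise_iff_get.1 hinj i j h) hi hj hij
    · exact (List.pairwise_iff_get.1 hinj j i h) hj hi hij.symm
  · have e1 : (L.map d).sum = ∑ i : Fin L.length, d (L.get i) := by
      rw [← List.sum_ofFn]
      congr 1
      apply List.ext_getElem
      · simp
      · intro n h1 h2; simp
    have e2 : (L.filter (fun i => decide (pole i))).length =
        (Finset.univ.filter (fun i : Fin L.length => pole (L.get i))).card := by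
      rw [Finset.card_filter]
      clear hM hinj h0 hn e1
      induction L with
      | nil => simp
      | cons x L ih =>
        refine Eq.trans ?_ (Fin.sum_univ_succ (n := L.length) _).symm
        rw [List.filter_cons]
        by_cases h : pole x
        · rw [if_pos (by simpa using h), List.length_cons, ih, add_comm]
          refine congrArg₂ (· + ·) (if_pos h).symm rfl
        · rw [if_neg (by simpa using h), ih, ← zero_add (∑ i : Fin L.length, _)]
          refine congrArg₂ (· + ·) (if_neg h).symm rfl
    rw [← e1, ← e2, hM]

end NUTG

end
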