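import Pool.Agent.NUTP.Data

/-!
# Laurent polynomials in `a = e ^ (i z)` and the sum of the residues

`LP M f`: `f` is a Laurent polynomial in `a` with exponents `M, M - 2, .., -M` only.
`res_sum`: the sum over `i` of `f (v_i) / ∏_{j ≠ i} sin (z_i - z_j)` vanishes for `LP M f`, if the
number of nodes is `M + 2, M + 4, ..`: the function `f / ∏ sin (z - z_j)` decays at both ends.
-/

set_option autoImplicit false

open Polynomial

noncomputable section

namespace NUTG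

open NUTP

/-- exponents `M, M - 2, .., -M` -/
def LP (M : ℕ) (f : ℂ → ℂ) : Prop :=
  ∃ P : ℂ[X], P.natDegree ≤ M ∧ ∀ a : ℂ, a ≠ 0 → a ^ M * f a = P.eval (a ^ 2)

lemma LP.congr {M : ℕ} {f g : ℂ → ℂ} (hf : LP M f) (h : ∀ a, a ≠ 0 → g a = f a) : LP M g := by
  obtain ⟨P, h1, h2⟩ := hf
  exact ⟨P, h1, fun a ha => by rw [h a ha, h2 a ha]⟩

lemma LP.const (c : ℂ) : LP 0 (fun _ => c) := ⟨C c, by simp, fun a _ => by simp⟩

lemma LP.mul {M N : ℕ} {f g : ℂ → ℂ} (hf : LP M f) (hg : LP N g) :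
    LP (M + N) (fun a => f a * g a) := by
  obtain ⟨P, h1, h2⟩ := hf
  obtain ⟨Q, h3, h4⟩ := hg
  refine ⟨P * Q, (natDegree_mul_le).trans (by omega), fun a ha => ?_⟩
  rw [eval_mul, ← h2 a ha, ← h4 a ha]; ring

lemma LP.cmul {M : ℕ} {f : ℂ → ℂ} (c : ℂ) (hf : LP M f) : LP M (fun a => c * f a) := by
  simpa using (LP.const c).mul hf

lemma LP.mulc {M : ℕ} {f : ℂ → ℂ} (hf : LP M f) (c : ℂ) : LP M (fun a => f a * c) :=
  (hf.cmul c).congr fun a _ => mul_comm _ _

lemma LP.neg {M : ℕ} {f : ℂ → ℂ} (hf : LP M f) : LP M (fun a => -f a) :=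
  (hf.cmul (-1)).congr fun a _ => by ring

lemma LP.zero (M : ℕ) : LP M (fun _ => 0) := ⟨0, by simp, fun a _ => by simp⟩

lemma LP.add {M : ℕ} {f g : ℂ → ℂ} (hf : LP M f) (hg : LP M g) :
    LP M (fun a => f a + g a) := by
  obtain ⟨P, h1, h2⟩ := hf
  obtain ⟨Q, h3, h4⟩ := hg
  refine ⟨P + Q, (natDegree_add_le _ _).trans (max_le h1 h3), fun a ha => ?_⟩
  rw [eval_add, ← h2 a ha, ← h4 a ha]; ring

lemma LP.sub {M : ℕ} {f g : ℂ → ℂ} (hf : LP M f) (hg : LP M g) :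
    LP M (fun a => f a - g a) :=
  (hf.add hg.neg).congr fun a _ => by ring

lemma LP.sum {ι : Type*} (s : Finset ι) {M : ℕ} {f : ι → ℂ → ℂ} (h : ∀ i ∈ s, LP M (f i)) :
    LP M (fun a => ∑ i ∈ s, f i a) := by
  classical
  induction s using Finset.induction_on with
  | empty => simpa using LP.zero M
  | insert i s hi ih =>
    refine ((h i (Finset.mem_insert_self _ _)).add
      (ih fun j hj => h j (Finset.mem_insert_of_mem hj))).congr fun a _ => ?_
    rw [Finset.sum_insert hi]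

/-- larger degree of the same parity -/
lemma LP.mono {M : ℕ} {f : ℂ → ℂ} (hf : LP M f) (k : ℕ) : LP (M + 2 * k) f := by
  obtain ⟨P, h1, h2⟩ := hf
  refine ⟨P * X ^ k, (natDegree_mul_le).trans ?_, fun a ha => ?_⟩
  · rw [natDegree_X_pow]; omega
  · rw [eval_mul, ← h2 a ha, eval_pow, eval_X]; ring

lemma LP.prod {ι : Type*} (l : List ι) {f : ι → ℂ → ℂ} {d : ι → ℕ}
    (h : ∀ i ∈ l, LP (d i) (f i)) : LP (l.map d).sum (fun a => (l.map fun i => f i a).prod) := by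
  induction l with
  | nil => simpa using LP.const 1
  | cons i l ih =>
    simp only [List.map_cons, List.sum_cons, List.prod_cons]
    exact (h i List.mem_cons_self).mul (ih fun j hj => h j (List.mem_cons_of_mem _ hj))

lemma LP.prod1 {ι : Type*} (l : List ι) {f : ι → ℂ → ℂ}
    (h : ∀ i ∈ l, LP 1 (f i)) : LP l.length (fun a => (l.map fun i => f i a).prod) := by
  have := LP.prod l (f := f) (d := fun _ => 1) h
  simpa using this

lemma LP.fprod {ι : Type*} (s : Finset ι) {f : ι → ℂ → ℂ} {d : ι → ℕ}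
    (h : ∀ i ∈ s, LP (d i) (f i)) : LP (∑ i ∈ s, d i) (fun a => ∏ i ∈ s, f i a) := by
  classical
  induction s using Finset.induction_on with
  | empty => simpa using LP.const 1
  | insert i s hi ih =>
    rw [Finset.sum_insert hi]
    refine ((h i (Finset.mem_insert_self _ _)).mul
      (ih fun j hj => h j (Finset.mem_insert_of_mem hj))).congr fun a _ => ?_
    rw [Finset.prod_insert hi]

/-- the general factor of degree one -/
lemma LP.lin (u v : ℂ) : LP 1 (fun a => u * a + v * a⁻¹) := by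
  refine ⟨C u * X + C v, ?_, fun a ha => ?_⟩
  · refine (natDegree_add_le _ _).trans (max_le ((natDegree_C_mul_le _ _).trans (by simp)) (by simp))
  · simp only [eval_add, eval_mul, eval_C, eval_X]; field_simp

/-- substitution `a → c a` -/
lemma LP.scale {M : ℕ} {f : ℂ → ℂ} (hf : LP M f) {c : ℂ} (hc : c ≠ 0) :
    LP M (fun a => f (c * a)) := by
  obtain ⟨P, h1, h2⟩ := hf
  refine ⟨C ((c ^ M)⁻¹) * P.comp (C (c ^ 2) * X), ?_, fun a ha => ?_⟩
  · refine (natDegree_C_mul_le _ _).trans ((natDegree_comp_le).trans ?_)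
    calc P.natDegree * (C (c ^ 2) * X).natDegree ≤ P.natDegree * 1 :=
          Nat.mul_le_mul_left _ ((natDegree_C_mul_le _ _).trans (by simp))
      _ ≤ M := by omega
  · have h := h2 (c * a) (mul_ne_zero hc ha)
    rw [eval_mul, eval_C, eval_comp, eval_mul, eval_C, eval_X, ← mul_pow, ← h, mul_pow]
    field_simp

/-- substitution `a → 1 / a` -/
lemma LP.inv {M : ℕ} {f : ℂ → ℂ} (hf : LP M f) : LP M (fun a => f a⁻¹) := by
  obtain ⟨P, h1, h2⟩ := hf
  refine ⟨P.reflect M, ?_, fun a ha => ?_⟩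
  · refine natDegree_le_iff_coeff_eq_zero.2 fun n hn => ?_
    rw [coeff_reflect, revAt_eq_self_of_lt hn]
    exact coeff_eq_zero_of_natDegree_lt (lt_of_le_of_lt h1 hn)
  · have h := h2 a⁻¹ (inv_ne_zero ha)
    have ha2 : (a ^ 2)⁻¹ ≠ 0 := inv_ne_zero (pow_ne_zero _ ha)
    let _ : Invertible ((a ^ 2)⁻¹) := invertibleOfNonzero ha2
    have h3 := eval₂_reflect_mul_pow (RingHom.id ℂ) ((a ^ 2)⁻¹) M P h1
    rw [invOf_eq_inv, inv_inv] at h3
    change (P.reflect M).eval (a ^ 2) * ((a ^ 2)⁻¹) ^ M = P.eval ((a ^ 2)⁻¹) at h3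
    rw [← inv_pow, ← h] at h3
    change a ^ M * f a⁻¹ = _
    have e1 : (a ^ 2)⁻¹ ^ M * (a ^ M * a ^ M) = 1 := by
      rw [← mul_pow, ← mul_pow]
      have : (a ^ 2)⁻¹ * (a * a) = 1 := by field_simp
      rw [this, one_pow]
    have e2 : a⁻¹ ^ M * a ^ M = 1 := by
      rw [← mul_pow, inv_mul_cancel₀ ha, one_pow]
    calc a ^ M * f a⁻¹ = (a⁻¹ ^ M * a ^ M) * (a ^ M * f a⁻¹) := by rw [e2, one_mul]
      _ = (a⁻¹ ^ M * f a⁻¹) * (a ^ M * a ^ M) := by ring
      _ = eval (a ^ 2) (P.reflect M) * ((a ^ 2)⁻¹ ^ M * (a ^ M * a ^ M)) := by rw [← h3]; ring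
      _ = _ := by rw [e1, mul_one]

lemma LP.sn (θ : ℂ) (k : ℕ) (c : ℂ) : LP 1 (fun a => NUTP.sn θ k (a / c)) := by
  refine (LP.lin (θ ^ k / c / (2 * θ ^ 4)) (-(c / θ ^ k / (2 * θ ^ 4)))).congr fun a _ => ?_
  unfold NUTP.sn
  rw [mul_inv, inv_div]
  ring

lemma LP.sn' (θ : ℂ) (k : ℕ) (c : ℂ) : LP 1 (fun a => NUTP.sn θ k (c / a)) := by
  refine (LP.lin (-(1 / (θ ^ k * c) / (2 * θ ^ 4))) (θ ^ k * c / (2 * θ ^ 4))).congr fun a _ => ?_
  simp only [NUTP.sn, mul_inv, inv_div]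
  ring

lemma LP.cs (c : ℂ) : LP 1 (fun a => NUTP.cs (a / c)) := by
  refine (LP.lin (1 / c / 2) (c / 2)).congr fun a _ => ?_
  unfold NUTP.cs
  rw [inv_div]
  ring

lemma LP.cs' (c : ℂ) : LP 1 (fun a => NUTP.cs (c / a)) := by
  refine (LP.lin (1 / c / 2) (c / 2)).congr fun a _ => ?_
  unfold NUTP.cs
  rw [inv_div]
  ring

/-- **sum of the residues** of `f (w) / ∏ sin (w - w_i)` -/
lemma res_sum {ι : Type*} [DecidableEq ι] {θ : ℂ} (hθ : θ ≠ 0) (s : Finset ι) (v : ι → ℂ)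
    (h0 : ∀ i ∈ s, v i ≠ 0) (hinj : Set.InjOn (fun i => v i ^ 2) s) {M k : ℕ} {f : ℂ → ℂ}
    (hf : LP M f) (hM : s.card = M + 2 + 2 * k) :
    ∑ i ∈ s, f (v i) / ∏ j ∈ s.erase i, NUTP.sn θ 0 (v i / v j) = 0 := by
  obtain ⟨P, h1, h2⟩ := hf
  have h3 : (P * X ^ k).degree < ((s.card : ℕ) : WithBot ℕ) := by
    have : (P * X ^ k).natDegree ≤ M + k := (natDegree_mul_le).trans (by rw [natDegree_X_pow]; omega)
    have h4 : (((P * X ^ k).natDegree : ℕ) : WithBot ℕ) < ((s.card : ℕ) : WithBot ℕ) := by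
      exact_mod_cast (by omega : (P * X ^ k).natDegree < s.card)
    exact lt_of_le_of_lt degree_le_natDegree h4
  have h4 := Lagrange.coeff_eq_sum hinj h3
  have h5 : (P * X ^ k).coeff (s.card - 1) = 0 := by
    apply coeff_eq_zero_of_natDegree_lt
    have : (P * X ^ k).natDegree ≤ M + k := (natDegree_mul_le).trans (by rw [natDegree_X_pow]; omega)
    omega
  rw [h5] at h4
  have h6 : ∀ i ∈ s, f (v i) / ∏ j ∈ s.erase i, NUTP.sn θ 0 (v i / v j) =
      ((2 * θ ^ 4) ^ (s.card - 1) * ∏ j ∈ s, v j) *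
        ((P * X ^ k).eval (v i ^ 2) / ∏ j ∈ s.erase i, (v i ^ 2 - v j ^ 2)) := by
    intro i hi
    have hvi := h0 i hi
    have e1 : ∏ j ∈ s.erase i, NUTP.sn θ 0 (v i / v j) =
        (∏ j ∈ s.erase i, (v i ^ 2 - v j ^ 2)) /
          ((2 * θ ^ 4) ^ (s.card - 1) * v i ^ (s.card - 1) * ∏ j ∈ s.erase i, v j) := by
      rw [← Finset.card_erase_of_mem hi, ← Finset.prod_const, ← Finset.prod_const,
        ← Finset.prod_mul_distrib, ← Finset.prod_mul_distrib, ← Finset.prod_div_distrib]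
      refine Finset.prod_congr rfl fun j hj => ?_
      have hvj := h0 j (Finset.mem_of_mem_erase hj)
      unfold NUTP.sn
      field_simp
    have e2 : ∏ j ∈ s, v j = v i * ∏ j ∈ s.erase i, v j := (Finset.mul_prod_erase s v hi).symm
    have e3 : (P * X ^ k).eval (v i ^ 2) = v i ^ (M + 2 * k) * f (v i) := by
      rw [eval_mul, eval_pow, eval_X, ← h2 _ hvi]; ring
    have e4 : v i ^ (s.card - 1) = v i ^ (M + 2 * k) * v i := by
      rw [← pow_succ]; congr 1; omega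
    rw [e1, e2, e3, e4]
    rcases eq_or_ne (∏ j ∈ s.erase i, (v i ^ 2 - v j ^ 2)) 0 with h | h
    · simp [h]
    · rw [div_div_eq_mul_div, div_eq_iff h]
      field_simp
  rw [Finset.sum_congr rfl h6, ← Finset.mul_sum, ← h4, mul_zero]

/-- **sum of the residues** of a product of factors `m_i = n_i / sin (w - w_i)` (`i` with a pole)
and `m_i = n_i` (no pole) -/
lemma res_prod {ι : Type*} [DecidableEq ι] {θ : ℂ} (hθ : θ ≠ 0) (s : Finset ι) (pole : ι → Prop)
    [DecidablePred pole] (c : ι → ℂ) (n : ι → ℂ → ℂ) (d : ι → ℕ) (hn : ∀ i ∈ s, LP (d i) (n i))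
    (h0 : ∀ i ∈ s, pole i → c i ≠ 0)
    (hinj : ∀ i ∈ s, ∀ j ∈ s, pole i → pole j → c i ^ 2 = c j ^ 2 → i = j) {k : ℕ}
    (hM : (s.filter pole).card = (∑ i ∈ s, d i) + 2 + 2 * k) :
    ∑ i ∈ s.filter pole, n i (c i) * ∏ j ∈ s.erase i,
      (if pole j then n j (c i) / NUTP.sn θ 0 (c i / c j) else n j (c i)) = 0 := by
  have h := res_sum hθ (s.filter pole) c (fun i hi => by
      rw [Finset.mem_filter] at hi; exact h0 i hi.1 hi.2)
    (by
      intro i hi j hj hij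
      rw [Finset.mem_coe, Finset.mem_filter] at hi hj
      exact hinj i hi.1 j hj.1 hi.2 hj.2 hij) (LP.fprod s hn) hM
  rw [← h]
  refine Finset.sum_congr rfl fun i hi => ?_
  rw [Finset.mem_filter] at hi
  have e1 : ∏ j ∈ s.erase i, (if pole j then n j (c i) / NUTP.sn θ 0 (c i / c j) else n j (c i)) =
      (∏ j ∈ s.erase i, n j (c i)) / ∏ j ∈ (s.filter pole).erase i, NUTP.sn θ 0 (c i / c j) := by
    rw [← Finset.filter_erase, Finset.prod_filter, ← Finset.prod_div_distrib]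
    refine Finset.prod_congr rfl fun j _ => ?_
    split_ifs
    · rfl
    · rw [div_one]
  rw [e1, ← Finset.mul_prod_erase s (fun j => n j (c i)) hi.1, mul_div_assoc]

end NUTG

end
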